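import Pool.Agent.Lib.MP_7cdc3e_gt.T7.Spec

/-!
# C32, part T7: a family of sets of six elements has a kernel
-/

set_option autoImplicit false

namespace TightRP

namespace T7

theorem tCom : S_Com := by
  classical
  intro V _ 𝒯 h6 hinf
  let Q : ℕ → Prop := fun n => ∃ A : Finset V, A.card = n ∧ {t ∈ 𝒯 | A ⊆ t}.Infinite
  have hQ0 : Q 0 := ⟨∅, rfl, by simpa using hinf⟩
  have hQle : ∀ n, Q n → n ≤ 6 := by
    rintro n ⟨A, rfl, hA⟩
    obtain ⟨t, ht, hAt⟩ := hA.nonempty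
    rw [← h6 t ht]
    exact Finset.card_le_card hAt
  obtain ⟨A, hA, hAinf⟩ : Q (Nat.findGreatest Q 6) :=
    Nat.findGreatest_spec (m := 0) (Nat.zero_le _) hQ0
  refine ⟨A, hAinf, fun Y => ?_⟩
  have hS : ({t ∈ 𝒯 | A ⊆ t} \ {Y}).Infinite := hAinf.sdiff (Set.finite_singleton Y)
  by_contra hno
  apply hS
  refine Set.Finite.subset (s := ⋃ B ∈ ((Y.powerset.filter fun B => ¬ B ⊆ A : Finset (Finset V)) :
    Set (Finset V)), {t ∈ 𝒯 | A ∪ B ⊆ t}) ?_ ?_
  · refine Set.Finite.biUnion (Finset.finite_toSet _) ?_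
    intro B hB
    rw [Finset.mem_coe, Finset.mem_filter] at hB
    by_contra hBinf
    have h1 : Q (A ∪ B).card := ⟨A ∪ B, rfl, hBinf⟩
    have h2 : (A ∪ B).card ≤ A.card := by
      rw [hA]
      exact Nat.le_findGreatest (hQle _ h1) h1
    have h3 : A = A ∪ B := Finset.eq_of_subset_of_card_le Finset.subset_union_left h2
    exact hB.2 (h3 ▸ Finset.subset_union_right)
  · rintro t ⟨⟨ht, hAt⟩, htY⟩
    rw [Set.mem_iUnion₂]
    refine ⟨t ∩ Y, ?_, ht, Finset.union_subset hAt Finset.inter_subset_left⟩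
    rw [Finset.mem_coe, Finset.mem_filter, Finset.mem_powerset]
    exact ⟨Finset.inter_subset_right, fun h => hno ⟨t, ht, hAt, htY, h⟩⟩

end T7

end TightRP
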