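import Pool.Agent.Lib.MP_7cdc3e_gt.T7.Spec

/-! The complex of the supports of optimal solutions. -/

namespace TightRP

namespace T7

private lemma mem_supp {m : ℕ} (t : Fin m → ℝ) (j : Fin m) : j ∈ supp t ↔ t j ≠ 0 := by
  unfold supp
  rw [Finset.mem_filter]
  exact ⟨fun h => h.2, fun h => ⟨Finset.mem_univ j, h⟩⟩

private lemma sum_supp {m : ℕ} {E : Type} [AddCommGroup E] [Module ℝ E] (t : Fin m → ℝ)
    (u : Fin m → E) : ∑ j, t j • u j = ∑ j ∈ supp t, t j • u j := by
  symm
  apply Finset.sum_subset (Finset.subset_univ _)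
  intro j _ hj
  rw [mem_supp, not_not] at hj
  rw [hj, zero_smul]

private lemma sum_supp' {m : ℕ} (t : Fin m → ℝ) : ∑ j, t j = ∑ j ∈ supp t, t j := by
  symm
  apply Finset.sum_subset (Finset.subset_univ _)
  intro j _ hj
  rw [mem_supp, not_not] at hj
  exact hj

theorem tCpx (h1 : S_OEx) (h2 : S_OInd) (_h3 : S_OUn) (h4 : S_OSub) (h5 : S_Fce) (h6 : S_Fne) :
    S_Cpx := by
  classical
  intro m N ι v h X ω hV hG
  -- points with smaller support
  have ha : ∀ x ∈ X, ∀ t t' : Fin m → ℝ, Opt v ω x t → (∀ j, 0 ≤ t' j) → ∑ j, t' j = 1 →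
      supp t' ⊆ supp t → ∃ y ∈ X, Opt v ω y t' := by
    intro x hx t t' ht h0 hs hsub
    refine ⟨∑ j, t' j • v j, ?_, h4 m N v ω x t t' ht h0 hs hsub⟩
    obtain ⟨i, hi, -⟩ := hV.cov x hx
    have hz := h5 m N v x t (h i) (hV.pos i) ht.1 hi
    apply hV.sub i
    rw [sum_supp]
    apply (convex_convexHull ℝ _).sum_mem
    · intro j _
      exact h0 j
    · rw [← sum_supp', hs]
    · intro j hj
      apply subset_convexHull
      exact ⟨j, hz j ((mem_supp t j).1 (hsub hj)), rfl⟩
  have hne : ∀ t : Fin m → ℝ, ∑ j, t j = 1 → (supp t).Nonempty := by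
    intro t hs
    by_contra hcon
    rw [Finset.not_nonempty_iff_eq_empty] at hcon
    rw [sum_supp', hcon, Finset.sum_empty] at hs
    exact zero_ne_one hs
  have hvert : ∀ j : Fin m, ∃ x ∈ X, ∃ t, Opt v ω x t ∧ supp t = {j} := by
    intro j
    obtain ⟨i, hi, hnot⟩ := hV.ext j
    have hvX : v j ∈ X := hV.sub i (subset_convexHull ℝ _ ⟨j, hi, rfl⟩)
    obtain ⟨t, ht⟩ := h1 m N v ω (v j) (h6 m N ι v h X hV (v j) hvX)
    have hz := h5 m N v (v j) t (h i) (hV.pos i) ht.1 hi
    obtain ⟨⟨t0, ts, tv⟩, -⟩ := id ht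
    refine ⟨v j, hvX, t, ht, ?_⟩
    have hsum : ∑ l ∈ Finset.univ.erase j, t l + t j = 1 := by
      rw [Finset.sum_erase_add _ _ (Finset.mem_univ j), ts]
    have hsumv : ∑ l ∈ Finset.univ.erase j, t l • v l + t j • v j = v j := by
      rw [Finset.sum_erase_add _ _ (Finset.mem_univ j), tv]
    have hR0 : 0 ≤ ∑ l ∈ Finset.univ.erase j, t l := Finset.sum_nonneg (fun l _ => t0 l)
    obtain ⟨r, hr⟩ : ∃ r, r = ∑ l ∈ Finset.univ.erase j, t l := ⟨_, rfl⟩
    rw [← hr] at hsum hR0
    rcases eq_or_lt_of_le hR0 with hr0 | hrpos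
    · -- all other entries vanish
      have hz0 : ∀ l ∈ Finset.univ.erase j, t l = 0 := by
        apply (Finset.sum_eq_zero_iff_of_nonneg (fun l _ => t0 l)).1
        rw [← hr, ← hr0]
      have htj : t j = 1 := by rw [← hr0, zero_add] at hsum; exact hsum
      ext l
      rw [mem_supp, Finset.mem_singleton]
      constructor
      · intro hl
        by_contra hlj
        exact hl (hz0 l (Finset.mem_erase.2 ⟨hlj, Finset.mem_univ l⟩))
      · intro hl
        rw [hl, htj]
        exact one_ne_zero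
    · exfalso
      apply hnot
      have hv : v j = ∑ l ∈ (supp t).erase j, (t l / r) • v l := by
        have e1 : ∑ l ∈ Finset.univ.erase j, t l • v l = r • v j := by
          have e2 : t j = 1 - r := by linarith
          rw [e2, sub_smul, one_smul] at hsumv
          have e3 : ∑ l ∈ Finset.univ.erase j, t l • v l - r • v j = 0 := by
            have e4 := sub_eq_zero.2 hsumv
            rw [← e4]
            abel
          exact sub_eq_zero.1 e3
        have e5 : ∑ l ∈ Finset.univ.erase j, t l • v l = ∑ l ∈ (supp t).erase j, t l • v l := by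
          symm
          apply Finset.sum_subset
          · intro l hl
            rw [Finset.mem_erase] at hl ⊢
            exact ⟨hl.1, Finset.mem_univ l⟩
          · intro l hl hl'
            rw [Finset.mem_erase] at hl hl'
            have e6 : t l = 0 := by
              by_contra e7
              exact hl' ⟨hl.1, (mem_supp t l).2 e7⟩
            rw [e6, zero_smul]
        rw [e5] at e1
        have e8 : v j = r⁻¹ • (r • v j) := by
          rw [smul_smul, inv_mul_cancel₀ hrpos.ne', one_smul]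
        rw [e8, ← e1, Finset.smul_sum]
        apply Finset.sum_congr rfl
        intro l _
        rw [smul_smul, div_eq_inv_mul]
      rw [hv]
      apply (convex_convexHull ℝ _).sum_mem
      · intro l _
        exact div_nonneg (t0 l) hrpos.le
      · rw [← Finset.sum_div]
        have e5 : ∑ l ∈ (supp t).erase j, t l = r := by
          rw [hr]
          apply Finset.sum_subset
          · intro l hl
            rw [Finset.mem_erase] at hl ⊢
            exact ⟨hl.1, Finset.mem_univ l⟩
          · intro l hl hl'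
            rw [Finset.mem_erase] at hl hl'
            by_contra e7
            exact hl' ⟨hl.1, (mem_supp t l).2 e7⟩
        rw [e5, div_self hrpos.ne']
      · intro l hl
        rw [Finset.mem_erase] at hl
        apply subset_convexHull
        exact ⟨l, ⟨hl.1, hz l ((mem_supp t l).1 hl.2)⟩, rfl⟩
  refine ⟨⟨{S | ∃ x ∈ X, ∃ t, Opt v ω x t ∧ supp t = S}, hvert, ?_, ?_, ?_⟩, ?_⟩
  · rintro S ⟨x, hx, t, ht, rfl⟩
    exact hne t ht.1.2.1
  · rintro S ⟨x, hx, t, ht, rfl⟩ T hT hTne
    have hc : (0 : ℝ) < (T.card : ℝ) := by exact_mod_cast hTne.card_pos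
    obtain ⟨t', ht'⟩ : ∃ t' : Fin m → ℝ, t' = fun j => if j ∈ T then 1 / (T.card : ℝ) else 0 :=
      ⟨_, rfl⟩
    have hst : supp t' = T := by
      ext j
      rw [mem_supp, ht']
      beta_reduce
      split_ifs with hj
      · exact ⟨fun _ => hj, fun _ => by positivity⟩
      · exact ⟨fun h => absurd rfl h, fun h => absurd h hj⟩
    have h0 : ∀ j, 0 ≤ t' j := by
      intro j
      rw [ht']
      beta_reduce
      split_ifs
      · positivity
      · exact le_rfl
    have hs : ∑ j, t' j = 1 := by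
      rw [ht', Finset.sum_ite_mem, Finset.univ_inter, Finset.sum_const, nsmul_eq_mul,
        mul_one_div_cancel hc.ne']
    obtain ⟨y, hy, hyo⟩ := ha x hx t t' ht h0 hs (by rw [hst]; exact hT)
    exact ⟨y, hy, t', hyo, hst⟩
  · rintro S ⟨x, hx, t, ht, rfl⟩
    obtain ⟨i, hi, -⟩ := hV.cov x hx
    have hz := h5 m N v x t (h i) (hV.pos i) ht.1 hi
    exact hV.dim i (supp t) (fun j hj => hz j ((mem_supp t j).1 hj)) (h2 m N v ω x t hG ht)
  · intro t
    constructor
    · rintro ⟨h0, hs, x, hx, s, hso, hss⟩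
      exact ha x hx s t hso h0 hs (by rw [hss])
    · rintro ⟨x, hx, ht⟩
      exact ⟨ht.1.1, ht.1.2.1, x, hx, t, ht, rfl⟩

end T7

end TightRP
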