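import Pool.Agent.Lib.MP_7cdc3e_gt.T7.Spec

/-!
# MP_7cdc3e_gt, T7, Dge: the dimension of a cell with an interior point is at least three
-/

set_option autoImplicit false

open Module

namespace TightRP

namespace T7

private theorem locE3 : LocEuc3 (EuclideanSpace ℝ (Fin 3)) := fun x =>
  ⟨Set.univ, isOpen_univ, Set.mem_univ x, ⟨Homeomorph.Set.univ _⟩⟩

theorem tDge : S_Dge := by
  intro M _ N f X O hM hf hinj hO hOX hne
  by_contra hlt
  rw [not_le] at hlt
  have h3 : finrank ℝ (EuclideanSpace ℝ (Fin 3)) = 3 := by simp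
  obtain ⟨L₀, hL₀⟩ := (finrank_le_iff_exists_linearMap (R := ℝ)
    (M := vectorSpan ℝ (f '' X)) (M' := EuclideanSpace ℝ (Fin 3))).1 (by omega)
  obtain ⟨L, hL⟩ := L₀.exists_extend
  obtain ⟨x, hx⟩ := hne
  have hmem : ∀ y ∈ X, ∀ z ∈ X, f y - f z ∈ vectorSpan ℝ (f '' X) := fun y hy z hz =>
    vsub_mem_vectorSpan ℝ (Set.mem_image_of_mem f hy) (Set.mem_image_of_mem f hz)
  have hLW : ∀ w (hw : w ∈ vectorSpan ℝ (f '' X)), L w = L₀ ⟨w, hw⟩ := fun w hw => by
    rw [← hL]
    rfl
  have hLc : Continuous L := L.continuous_of_finiteDimensional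
  have hopen : IsOpen ((fun y => L (f y - f x)) '' O) := by
    refine InvDom.isOpen_image_of_locEuc hM locE3 _ O hO ?_ ?_
    · exact (hLc.comp (hf.sub continuous_const)).continuousOn
    · intro y hy z hz hyz
      apply hinj (hOX hy) (hOX hz)
      have h1 : L (f y - f x) = L (f z - f x) := hyz
      have h2 : L (f y - f z) = 0 := by
        have h5 : f y - f z = (f y - f x) - (f z - f x) := by abel
        rw [h5, map_sub, h1, sub_self]
      rw [hLW _ (hmem y (hOX hy) z (hOX hz))] at h2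
      have h4 := (map_eq_zero_iff L₀ hL₀).1 h2
      exact sub_eq_zero.1 (congrArg Subtype.val h4)
  have hsub : (fun y => L (f y - f x)) '' O ⊆
      (LinearMap.range L₀ : Set (EuclideanSpace ℝ (Fin 3))) := by
    rintro _ ⟨y, hy, rfl⟩
    exact ⟨⟨f y - f x, hmem y (hOX hy) x (hOX hx)⟩, (hLW _ _).symm⟩
  have htop : LinearMap.range L₀ = ⊤ := by
    apply Submodule.eq_top_of_nonempty_interior'
    exact ⟨L (f x - f x), interior_maximal hsub hopen ⟨x, hx, rfl⟩⟩
  have h4 := LinearMap.finrank_range_of_inj hL₀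
  rw [htop, finrank_top, h3] at h4
  omega

end T7

end TightRP
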