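import Pool.Agent.Lib.MP_7cdc3e_gt.T7.Spec

/-!
# MP_7cdc3e_gt, part T7: the dimension of a cell is at most three
-/

set_option autoImplicit false

open Module

namespace TightRP

namespace T7

theorem tDle (h1 : S_RIex) : S_Dle := by
  intro M _ _ N f X hM hf hX hinj hcvx hne
  by_contra hlt
  rw [not_le] at hlt
  obtain ⟨p, ε, hε, hp⟩ := h1 N (f '' X) hcvx (hne.image f)
  have hpK : p ∈ f '' X := by
    have h := hp 0 (Submodule.zero_mem _) (by rw [norm_zero]; exact hε)
    rwa [add_zero] at h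
  haveI : CompactSpace X := isCompact_iff_compactSpace.1 hX
  let F : X → (f '' X : Set (En N)) := fun x => ⟨f x, Set.mem_image_of_mem f x.2⟩
  have hFc : Continuous F :=
    Continuous.subtype_mk (hf.comp continuous_subtype_val) _
  have hFb : Function.Bijective F := by
    constructor
    · intro x y hxy
      exact Subtype.ext (hinj x.2 y.2 (congrArg Subtype.val hxy))
    · rintro ⟨_, x, hx, rfl⟩
      exact ⟨⟨x, hx⟩, rfl⟩
  let e : X ≃ (f '' X : Set (En N)) := Equiv.ofBijective F hFb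
  let φ : X ≃ₜ (f '' X : Set (En N)) := Continuous.homeoOfEquivCompactToT2 (f := e) hFc
  let s : (f '' X : Set (En N)) → M := fun y => (φ.symm y : X)
  have hsc : Continuous s := continuous_subtype_val.comp φ.symm.continuous
  have hfs : ∀ y : (f '' X : Set (En N)), f (s y) = y := by
    intro y
    have h : φ (φ.symm y) = y := φ.apply_symm_apply y
    exact congrArg Subtype.val h
  have hle : finrank ℝ (EuclideanSpace ℝ (Fin 3)) ≤ finrank ℝ (vectorSpan ℝ (f '' X)) := by
    rw [finrank_euclideanSpace_fin]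
    omega
  obtain ⟨L, hL⟩ := finrank_le_iff_exists_linearMap.1 hle
  have hLc : Continuous fun v => ((L v : vectorSpan ℝ (f '' X)) : En N) :=
    continuous_subtype_val.comp L.continuous_of_finiteDimensional
  let B : Set (EuclideanSpace ℝ (Fin 3)) := {v | ‖((L v : vectorSpan ℝ (f '' X)) : En N)‖ < ε}
  have hB : IsOpen B := isOpen_lt hLc.norm continuous_const
  have hBK : ∀ v ∈ B, p + ((L v : vectorSpan ℝ (f '' X)) : En N) ∈ f '' X := fun v hv =>
    hp _ (L v).2 hv
  classical
  let σ : EuclideanSpace ℝ (Fin 3) → M := fun v =>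
    if h : p + ((L v : vectorSpan ℝ (f '' X)) : En N) ∈ f '' X then s ⟨_, h⟩ else s ⟨p, hpK⟩
  have hσ : ∀ v (h : p + ((L v : vectorSpan ℝ (f '' X)) : En N) ∈ f '' X),
      σ v = s ⟨_, h⟩ := fun v h => dif_pos h
  have hσf : ∀ v ∈ B, f (σ v) = p + ((L v : vectorSpan ℝ (f '' X)) : En N) := by
    intro v hv
    rw [hσ v (hBK v hv), hfs]
  have hσc : ContinuousOn σ B := by
    rw [continuousOn_iff_continuous_domRestrict]
    have h2 : B.domRestrict σ = fun v : B =>
        s ⟨p + ((L v.1 : vectorSpan ℝ (f '' X)) : En N), hBK v.1 v.2⟩ := by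
      funext v
      exact hσ v.1 (hBK v.1 v.2)
    rw [h2]
    refine hsc.comp (Continuous.subtype_mk ?_ _)
    exact continuous_const.add (hLc.comp continuous_subtype_val)
  have hσi : Set.InjOn σ B := by
    intro v hv v' hv' h
    have h3 : p + ((L v : vectorSpan ℝ (f '' X)) : En N) =
        p + ((L v' : vectorSpan ℝ (f '' X)) : En N) := by
      rw [← hσf v hv, ← hσf v' hv', h]
    exact hL (Subtype.ext (add_left_cancel h3))
  have hE : ∀ x : EuclideanSpace ℝ (Fin 3), ∃ U : Set (EuclideanSpace ℝ (Fin 3)),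
      IsOpen U ∧ x ∈ U ∧ Nonempty (U ≃ₜ EuclideanSpace ℝ (Fin 3)) := fun x =>
    ⟨Set.univ, isOpen_univ, trivial, ⟨Homeomorph.Set.univ _⟩⟩
  have hU : IsOpen (σ '' B) := InvDom.isOpen_image_of_locEuc hE hM σ B hB hσc hσi
  have h0B : (0 : EuclideanSpace ℝ (Fin 3)) ∈ B := by
    show ‖((L 0 : vectorSpan ℝ (f '' X)) : En N)‖ < ε
    rw [map_zero, Submodule.coe_zero, norm_zero]
    exact hε
  -- a direction outside the range
  obtain ⟨w, hw⟩ : ∃ w : vectorSpan ℝ (f '' X), ∀ v, L v ≠ w := by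
    by_contra hcon
    push Not at hcon
    have h4 : LinearMap.range L = ⊤ := LinearMap.range_eq_top.2 hcon
    have h5 := LinearMap.finrank_range_le L
    rw [h4, finrank_top, finrank_euclideanSpace_fin] at h5
    omega
  have hw0 : (0 : ℝ) < ‖(w : En N)‖ := by
    rw [norm_pos_iff]
    intro h
    exact hw 0 (by rw [map_zero]; exact Subtype.ext h.symm)
  have hop : IsOpen (s ⁻¹' (σ '' B)) := hU.preimage hsc
  have hmem : (⟨p, hpK⟩ : (f '' X : Set (En N))) ∈ s ⁻¹' (σ '' B) := by
    refine ⟨0, h0B, ?_⟩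
    rw [hσ 0 (hBK 0 h0B)]
    congr 1
    apply Subtype.ext
    show p + ((L 0 : vectorSpan ℝ (f '' X)) : En N) = p
    rw [map_zero, Submodule.coe_zero, add_zero]
  obtain ⟨δ, hδ, hball⟩ := Metric.isOpen_iff.1 hop _ hmem
  have hm : 0 < min ε δ := lt_min hε hδ
  let t : ℝ := min ε δ / (2 * ‖(w : En N)‖)
  have ht : 0 < t := div_pos hm (by positivity)
  have htn : ‖t • (w : En N)‖ = min ε δ / 2 := by
    rw [norm_smul, Real.norm_eq_abs, abs_of_pos ht]
    simp only [t]
    field_simp
  have htε : ‖t • (w : En N)‖ < ε := by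
    rw [htn]
    have := min_le_left ε δ
    linarith
  have htδ : ‖t • (w : En N)‖ < δ := by
    rw [htn]
    have := min_le_right ε δ
    linarith
  have hyK : p + t • (w : En N) ∈ f '' X := hp _ (Submodule.smul_mem _ _ w.2) htε
  have hyb : (⟨p + t • (w : En N), hyK⟩ : (f '' X : Set (En N))) ∈
      Metric.ball (⟨p, hpK⟩ : (f '' X : Set (En N))) δ := by
    rw [Metric.mem_ball, Subtype.dist_eq]
    show dist (p + t • (w : En N)) p < δ
    rw [dist_eq_norm, add_sub_cancel_left]
    exact htδ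
  obtain ⟨v, hv, hvs⟩ := hball hyb
  have h6 : p + ((L v : vectorSpan ℝ (f '' X)) : En N) = p + t • (w : En N) := by
    rw [← hσf v hv, hvs, hfs]
  have h7 : L v = t • w := Subtype.ext (add_left_cancel h6)
  apply hw (t⁻¹ • v)
  rw [map_smul, h7, smul_smul, inv_mul_cancel₀ ht.ne', one_smul]

end T7

end TightRP
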