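import Pool.Agent.Lib.MP_7cdc3e_gt.T7.Spec

/-!
# MP_7cdc3e_gt, part T7: a cell has finitely many extreme points
-/

set_option autoImplicit false

open Module

namespace TightRP

namespace T7

theorem tExt (h1 : S_Half) : S_Ext := by
  intro N ι _ K h hW
  have hlin : ∀ i (x y : En N) (t : ℝ),
      h i (x + t • (y - x)) = h i x + t * (h i y - h i x) := by
    intro i x y t
    have h2 : h i (t • (y - x) +ᵥ x) = (h i).linear (t • (y - x)) +ᵥ h i x :=
      (h i).map_vadd x (t • (y - x))
    have h3 : (h i).linear (y - x) = h i y - h i x := (h i).linearMap_vsub y x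
    rw [map_smul, h3] at h2
    rw [vadd_eq_add, vadd_eq_add, smul_eq_mul] at h2
    rw [add_comm x, h2, add_comm]
  have hinj : Set.InjOn (fun x : En N => {i | h i x = 0}) (K.extremePoints ℝ) := by
    intro x hx y hy hxy
    have hxK : x ∈ K := hx.1
    have hyK : y ∈ K := hy.1
    have hz : ∀ i, h i x = 0 ↔ h i y = 0 := fun i => by
      have := congrArg (fun S : Set ι => i ∈ S) hxy
      exact iff_of_eq this
    -- a small number
    have hsm : ∃ ε : ℝ, 0 < ε ∧ ∀ i, ε * |h i y - h i x| ≤ h i x := by
      have h4 : ∀ i, ∃ ε : ℝ, 0 < ε ∧ ε * |h i y - h i x| ≤ h i x := by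
        intro i
        by_cases hi : h i x = 0
        · refine ⟨1, one_pos, ?_⟩
          rw [hi, (hz i).1 hi, sub_zero, abs_zero, mul_zero]
        · have hi' : 0 < h i x := lt_of_le_of_ne (hW.pos i x hxK) (Ne.symm hi)
          have hn : 0 < |h i y - h i x| + 1 := by positivity
          refine ⟨h i x / (|h i y - h i x| + 1), by positivity, ?_⟩
          rw [div_mul_eq_mul_div, div_le_iff₀ hn]
          have := abs_nonneg (h i y - h i x)
          nlinarith
      choose ε hε0 hε using h4
      have := Fintype.ofFinite ι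
      rcases isEmpty_or_nonempty ι with hemp | hne
      · exact ⟨1, one_pos, fun i => hemp.elim i⟩
      · refine ⟨Finset.univ.inf' Finset.univ_nonempty ε, ?_, fun i => ?_⟩
        · rw [Finset.lt_inf'_iff]
          exact fun i _ => hε0 i
        · refine le_trans (mul_le_mul_of_nonneg_right (Finset.inf'_le ε (Finset.mem_univ i))
            (abs_nonneg _)) (hε i)
    obtain ⟨ε, hε0, hε⟩ := hsm
    have hw : y - x ∈ vectorSpan ℝ K := vsub_mem_vectorSpan ℝ hyK hxK
    have hp1 : x + ε • (y - x) ∈ K := by
      refine h1 N ι K h hW x hxK _ (Submodule.smul_mem _ ε hw) fun i => ?_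
      rw [hlin]
      have h5 := hε i
      have h6 := neg_abs_le (h i y - h i x)
      nlinarith
    have hp2 : x + (-ε) • (y - x) ∈ K := by
      refine h1 N ι K h hW x hxK _ (Submodule.smul_mem _ (-ε) hw) fun i => ?_
      rw [hlin]
      have h5 := hε i
      have h6 := le_abs_self (h i y - h i x)
      nlinarith
    have hseg : x ∈ openSegment ℝ (x + ε • (y - x)) (x + (-ε) • (y - x)) := by
      refine ⟨1 / 2, 1 / 2, by norm_num, by norm_num, by norm_num, ?_⟩
      rw [← smul_add]
      have h7 : x + ε • (y - x) + (x + (-ε) • (y - x)) = (2 : ℝ) • x := by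
        rw [neg_smul, two_smul]
        abel
      rw [h7, smul_smul]
      norm_num
    have h8 : x + ε • (y - x) = x := hx.2 hp1 hp2 hseg
    have h9 : ε • (y - x) = 0 := by
      have := congrArg (fun v => v - x) h8
      simpa using this
    rcases smul_eq_zero.1 h9 with h10 | h10
    · exact absurd h10 hε0.ne'
    · exact (sub_eq_zero.1 h10).symm
  exact Set.Finite.of_finite_image (Set.toFinite _) hinj

end T7

end TightRP
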