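import Pool.Agent.Lib.MP_7cdc3e_gt.T7.Spec

/-!
# MP_7cdc3e_gt, T7: supports stay in faces (S_Fce)
-/

set_option autoImplicit false

open Module

namespace TightRP

namespace T7

theorem tFce : S_Fce := by
  intro m N v x t h hv ht hx j hj
  obtain ⟨f0, f1, f2⟩ := ht
  have hl : ∀ y, h y = h.linear y + h 0 := by
    intro y
    have := h.map_vadd 0 y
    simpa using this
  have h1 : h x = ∑ j, t j * h (v j) := by
    rw [hl x, ← f2, map_sum]
    have h2 : ∀ j, t j * h (v j) = h.linear (t j • v j) + t j * h 0 := by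
      intro j
      rw [hl (v j), map_smul, smul_eq_mul]
      ring
    simp only [h2]
    rw [Finset.sum_add_distrib, ← Finset.sum_mul, f1, one_mul]
  rw [hx] at h1
  have h3 := (Finset.sum_eq_zero_iff_of_nonneg (fun j _ => mul_nonneg (f0 j) (hv j))).mp h1.symm j
    (Finset.mem_univ j)
  exact (mul_eq_zero.mp h3).resolve_left hj

end T7

end TightRP
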