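import Pool.Agent.Lib.MP_7cdc3e_gt.T7.Spec

/-! # T7/Fin: finitely many normal cones -/

set_option autoImplicit false

open Module

namespace TightRP

namespace T7

theorem tFin (h1 : S_Com) (h2 : S_Ker) : S_Fin := by
  classical
  intro M V _ _ _ e P R T nu H
  by_contra hfin
  have hinf : (T '' R).Infinite := hfin
  obtain ⟨A, hA, hAY⟩ := h1 V (T '' R) (by
    rintro t ⟨z, hz, rfl⟩
    exact H.card z hz) hinf
  -- the closed set
  let F : Finset (Finset V) := A.powerset.filter (fun s => ¬ P {x | ∃ a ∈ s, 0 < e x a})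
  let D : Set M := ⋃ s ∈ F, {y | ∀ a ∈ s, e y a = 0}
  have hDcl : IsClosed D := by
    apply isClosed_biUnion_finset
    intro s _
    have : {y | ∀ a ∈ s, e y a = 0} = ⋂ a ∈ s, {y | e y a = 0} := by
      ext y
      simp
    rw [this]
    apply isClosed_biInter
    intro a _
    exact isClosed_eq (H.cont a) continuous_const
  have hRD : R ⊆ D := by
    intro y hy
    obtain ⟨t, ⟨z, hz, rfl⟩, hAt, hne, hsub⟩ := hAY (T y)
    obtain ⟨s, hsA, hs0, hsP⟩ := h2 M V e P R T nu H A z hz y hy hne hsub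
    refine Set.mem_biUnion (x := s) ?_ hs0
    simp only [F, Finset.coe_filter, Finset.mem_powerset]
    exact ⟨hsA, hsP⟩
  have hDall : ∀ y, y ∈ D := by
    intro y
    have h3 : closure R ⊆ D := hDcl.closure_subset_iff.mpr hRD
    exact h3 (H.dense y)
  obtain ⟨t, ht, htA⟩ := hA.exists_notMem_finite (Set.finite_singleton A)
  obtain ⟨⟨z, hz, rfl⟩, hAt⟩ := ht
  have hg : ∃ g₀ ∈ T z, g₀ ∉ A := by
    by_contra hno
    push Not at hno
    exact htA (Finset.Subset.antisymm hno hAt)
  obtain ⟨g₀, hg₀, hg₀A⟩ := hg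
  obtain ⟨σ, hσ, hgσ, hσ3, y, hy⟩ := H.six z hz g₀ hg₀
  obtain ⟨s, hsF, hs0⟩ : ∃ s ∈ F, ∀ a ∈ s, e y a = 0 := by
    have := hDall y
    simp only [D, Set.mem_iUnion] at this
    obtain ⟨s, hs, h⟩ := this
    exact ⟨s, hs, h⟩
  simp only [F, Finset.mem_filter, Finset.mem_powerset] at hsF
  obtain ⟨hsA, hsP⟩ := hsF
  have hsub : s ⊆ ((T z) \ σ).erase g₀ := by
    intro a ha
    rw [Finset.mem_erase, Finset.mem_sdiff]
    refine ⟨?_, hAt (hsA ha), ?_⟩
    · rintro rfl
      exact hg₀A (hsA ha)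
    · intro haσ
      have := hy a haσ
      rw [hs0 a ha] at this
      exact lt_irrefl _ this
  have hcard : s.card ≤ 2 := by
    have h3 := Finset.card_le_card hsub
    have h4 : g₀ ∈ (T z) \ σ := Finset.mem_sdiff.mpr ⟨hg₀, hgσ⟩
    rw [Finset.card_erase_of_mem h4, Finset.card_sdiff_of_subset hσ, H.card z hz, hσ3] at h3
    exact h3
  have hpair : ∀ g ∈ s, ∀ g' ∈ s, P {x | 0 < e x g ∨ 0 < e x g'} := by
    intro g hg g' hg'
    have hgz : g ∈ T z := hAt (hsA hg)
    have hgz' : g' ∈ T z := hAt (hsA hg')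
    have h5 := H.thin z hz g hgz g' hgz'
    have h6 : {x | 0 < e x g ∨ 0 < e x g'} = {x | 0 < e x (g + g')} := by
      ext x
      have h7 := H.pos z hz g hgz x
      have h8 := H.pos z hz g' hgz' x
      show (0 < e x g ∨ 0 < e x g') ↔ 0 < e x (g + g')
      rw [map_add]
      constructor
      · rintro (h9 | h9) <;> linarith
      · intro h9
        by_contra hno
        push Not at hno
        linarith [hno.1, hno.2]
    rw [h6]
    exact h5
  have h012 : s.card = 0 ∨ s.card = 1 ∨ s.card = 2 := by omega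
  rcases h012 with h0 | h0 | h0
  · rw [Finset.card_eq_zero] at h0
    apply hsP
    have : {x | ∃ a ∈ s, 0 < e x a} = ∅ := by
      rw [h0]
      ext x
      simp
    rw [this]
    exact H.empty
  · obtain ⟨g, hg⟩ := Finset.card_eq_one.mp h0
    apply hsP
    have h3 := hpair g (by rw [hg]; simp) g (by rw [hg]; simp)
    have : {x | ∃ a ∈ s, 0 < e x a} = {x | 0 < e x g ∨ 0 < e x g} := by
      rw [hg]
      ext x
      simp
    rw [this]
    exact h3
  · obtain ⟨g, g', -, hg⟩ := Finset.card_eq_two.mp h0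
    apply hsP
    have h3 := hpair g (by rw [hg]; simp) g' (by rw [hg]; simp)
    have : {x | ∃ a ∈ s, 0 < e x a} = {x | 0 < e x g ∨ 0 < e x g'} := by
      rw [hg]
      ext x
      simp
    rw [this]
    exact h3

end T7

end TightRP
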