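import Pool.Agent.Lib.MP_7cdc3e_gt.T7.Spec

/-!
# MP_7cdc3e_gt, T7: points are feasible (S_Fne)
-/

set_option autoImplicit false

open Module

namespace TightRP

namespace T7

theorem tFne : S_Fne := by
  classical
  intro m N ι v h X hV x hx
  obtain ⟨i, -, hi⟩ := hV.cov x hx
  have hconv : Convex ℝ {y : En N | (Feas v y).Nonempty} := by
    rintro y ⟨t, f0, f1, f2⟩ z ⟨t', g0, g1, g2⟩ a b ha hb hab
    refine ⟨fun j => a * t j + b * t' j, fun j => ?_, ?_, ?_⟩
    · exact add_nonneg (mul_nonneg ha (f0 j)) (mul_nonneg hb (g0 j))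
    · show ∑ j, (a * t j + b * t' j) = 1
      rw [Finset.sum_add_distrib, ← Finset.mul_sum, ← Finset.mul_sum, f1, g1, mul_one, mul_one, hab]
    · show ∑ j, (a * t j + b * t' j) • v j = a • y + b • z
      simp only [add_smul, mul_smul]
      rw [Finset.sum_add_distrib, ← Finset.smul_sum, ← Finset.smul_sum, f2, g2]
  have hsub : v '' {j | h i (v j) = 0} ⊆ {y : En N | (Feas v y).Nonempty} := by
    rintro _ ⟨j, _, rfl⟩
    refine ⟨Pi.single j 1, fun l => ?_, ?_, ?_⟩
    · by_cases hl : l = j
      · rw [hl, Pi.single_eq_same]; exact zero_le_one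
      · rw [Pi.single_eq_of_ne hl]
    · rw [Finset.sum_pi_single']
      simp
    · rw [Finset.sum_eq_single j]
      · rw [Pi.single_eq_same, one_smul]
      · intro l _ hl
        rw [Pi.single_eq_of_ne hl, zero_smul]
      · intro hj
        exact absurd (Finset.mem_univ j) hj
  exact convexHull_min hsub hconv hi

end T7

end TightRP
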