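import Pool.Agent.Lib.MP_7cdc3e_gt.T7.Spec

/-!
# MP_7cdc3e_gt, part T7: a cell is an intersection of half-spaces in its affine span
-/

set_option autoImplicit false

open Module

namespace TightRP

namespace T7

theorem tHalf (h1 : S_RIex) : S_Half := by
  intro N ι K h hW p hp w hw hpos
  obtain ⟨x₀, ε, hε, hx₀⟩ := h1 N K hW.cvx hW.ne
  have hx₀K : x₀ ∈ K := by
    have := hx₀ 0 (Submodule.zero_mem _) (by rw [norm_zero]; exact hε)
    rwa [add_zero] at this
  have hlin : ∀ i (x y z : En N) (t : ℝ),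
      h i (x + t • (y - z)) = h i x + t * (h i y - h i z) := by
    intro i x y z t
    have h2 : h i (t • (y - z) +ᵥ x) = (h i).linear (t • (y - z)) +ᵥ h i x :=
      (h i).map_vadd x (t • (y - z))
    have h3 : (h i).linear (y - z) = h i y - h i z := (h i).linearMap_vsub y z
    rw [map_smul, h3] at h2
    rw [vadd_eq_add, vadd_eq_add, smul_eq_mul] at h2
    rw [add_comm x, h2, add_comm]
  have hx₀pos : ∀ i, 0 < h i x₀ := by
    intro i
    obtain ⟨k, hk, hne⟩ := hW.nz i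
    have hk' : 0 < h i k := lt_of_le_of_ne (hW.pos i k hk) (Ne.symm hne)
    have hn : 0 < ‖x₀ - k‖ + 1 := by positivity
    have ht : 0 < ε / (2 * (‖x₀ - k‖ + 1)) := by positivity
    have hlt : ‖(ε / (2 * (‖x₀ - k‖ + 1))) • (x₀ - k)‖ < ε := by
      rw [norm_smul, Real.norm_eq_abs, abs_of_pos ht, div_mul_eq_mul_div, div_lt_iff₀ (by positivity)]
      have := norm_nonneg (x₀ - k)
      nlinarith
    have hm := hx₀ _ (Submodule.smul_mem _ _ (vsub_mem_vectorSpan ℝ hx₀K hk)) hlt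
    have h4 := hW.pos i _ hm
    rw [vsub_eq_sub, hlin] at h4
    nlinarith [mul_pos ht hk']
  by_contra hx
  have hu : p + w - x₀ ∈ vectorSpan ℝ K := by
    have h5 : p + w - x₀ = w + (p - x₀) := by abel
    rw [h5]
    exact Submodule.add_mem _ hw (vsub_mem_vectorSpan ℝ hp hx₀K)
  have hcont : Continuous fun t : ℝ => x₀ + t • (p + w - x₀) := by fun_prop
  have hAc : IsCompact (Set.Icc (0 : ℝ) 1 ∩ (fun t : ℝ => x₀ + t • (p + w - x₀)) ⁻¹' K) :=
    isCompact_Icc.inter_right (hW.cpt.isClosed.preimage hcont)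
  have hAn : (Set.Icc (0 : ℝ) 1 ∩ (fun t : ℝ => x₀ + t • (p + w - x₀)) ⁻¹' K).Nonempty := by
    refine ⟨0, ⟨le_refl _, zero_le_one⟩, ?_⟩
    show x₀ + (0 : ℝ) • (p + w - x₀) ∈ K
    rw [zero_smul, add_zero]
    exact hx₀K
  obtain ⟨t, ⟨⟨ht0, ht1⟩, htK⟩, htmax⟩ := hAc.exists_isGreatest hAn
  have htK' : x₀ + t • (p + w - x₀) ∈ K := htK
  have htlt : t < 1 := by
    refine lt_of_le_of_ne ht1 fun h6 => hx ?_
    rw [h6, one_smul] at htK'
    rwa [add_sub_cancel] at htK'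
  have hri : RI K (x₀ + t • (p + w - x₀)) := by
    by_contra hnri
    obtain ⟨i, hi⟩ := hW.bd _ htK' hnri
    rw [hlin] at hi
    have h7 := hx₀pos i
    have h8 := hpos i
    have h9 : (1 - t) * h i x₀ + t * h i (p + w) = 0 := by linarith
    have h10 : 0 < (1 - t) * h i x₀ := mul_pos (by linarith) h7
    have h11 : 0 ≤ t * h i (p + w) := mul_nonneg ht0 h8
    linarith
  obtain ⟨δ, hδ, hball⟩ := hri
  have hn : 0 < ‖p + w - x₀‖ + 1 := by positivity
  obtain ⟨s, hs0, hs1, hs2⟩ : ∃ s : ℝ, 0 < s ∧ s ≤ 1 - t ∧ s ≤ δ / (2 * (‖p + w - x₀‖ + 1)) :=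
    ⟨min (1 - t) (δ / (2 * (‖p + w - x₀‖ + 1))), lt_min (by linarith) (by positivity),
      min_le_left _ _, min_le_right _ _⟩
  have hsn : ‖s • (p + w - x₀)‖ < δ := by
    rw [norm_smul, Real.norm_eq_abs, abs_of_pos hs0]
    rw [le_div_iff₀ (by positivity)] at hs2
    have := norm_nonneg (p + w - x₀)
    nlinarith
  have hm := hball _ (Submodule.smul_mem _ s hu) hsn
  have hmem : t + s ∈ Set.Icc (0 : ℝ) 1 ∩ (fun t : ℝ => x₀ + t • (p + w - x₀)) ⁻¹' K := by
    refine ⟨⟨by linarith, by linarith⟩, ?_⟩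
    show x₀ + (t + s) • (p + w - x₀) ∈ K
    rw [add_smul, ← add_assoc]
    exact hm
  have := htmax hmem
  linarith

end T7

end TightRP
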