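import Pool.Agent.Lib.MP_7cdc3e_gt.T7.Spec

/-! The linear program gives a triangulation. -/

namespace TightRP

namespace T7

theorem tHom (h1 : S_OEx) (h2 : S_OUn) (h3 : S_Fne) (h4 : S_Cpx) (h5 : S_Rc) (h6 : S_Gen) :
    S_Hom := by
  intro M _ _ _ m N ι f v h hf hinj hV
  obtain ⟨ω, hω⟩ := h6 m N v
  obtain ⟨K, hK⟩ := h4 m N ι v h (Set.range f) ω hV hω
  have hrho : ∀ t : K.real, (∑ j, t.1 j • v j) ∈ Set.range f ∧ Opt v ω (∑ j, t.1 j • v j) t.1 := by
    intro t
    obtain ⟨x, hx, ht⟩ := (hK t.1).1 t.2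
    have e1 : ∑ j, t.1 j • v j = x := ht.1.2.2
    rw [e1]
    exact ⟨hx, ht⟩
  obtain ⟨e, he⟩ : ∃ e : M ≃ₜ Set.range f, ∀ y, ((e y : Set.range f) : En N) = f y :=
    ⟨(hf.isClosedEmbedding hinj).toIsEmbedding.toHomeomorph, fun _ => rfl⟩
  obtain ⟨φ, hφ⟩ : ∃ φ : K.real → M, φ = fun t => e.symm ⟨∑ j, t.1 j • v j, (hrho t).1⟩ := ⟨_, rfl⟩
  have hfφ : ∀ t, f (φ t) = ∑ j, t.1 j • v j := by
    intro t
    rw [← he, hφ]
    beta_reduce
    rw [e.apply_symm_apply]
  have hcont : Continuous φ := by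
    rw [hφ]
    apply e.symm.continuous.comp
    apply Continuous.subtype_mk
    apply continuous_finset_sum
    intro j _
    exact ((continuous_apply j).comp continuous_subtype_val).smul continuous_const
  have hbij : Function.Bijective φ := by
    constructor
    · intro t t' htt
      have e1 : ∑ j, t.1 j • v j = ∑ j, t'.1 j • v j := by rw [← hfφ, ← hfφ, htt]
      have o1 := (hrho t).2
      have o2 := (hrho t').2
      rw [e1] at o1
      exact Subtype.ext (h2 m N v ω _ _ _ hω o1 o2)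
    · intro y
      have hy : f y ∈ Set.range f := ⟨y, rfl⟩
      obtain ⟨t, ht⟩ := h1 m N v ω (f y) (h3 m N ι v h (Set.range f) hV (f y) hy)
      have htK : t ∈ K.real := (hK t).2 ⟨f y, hy, ht⟩
      refine ⟨⟨t, htK⟩, ?_⟩
      apply hinj
      rw [hfφ]
      exact ht.1.2.2
  haveI : CompactSpace K.real := isCompact_iff_compactSpace.1 (h5 m K)
  obtain ⟨E, hE⟩ : ∃ E : K.real ≃ M, ∀ t, E t = φ t := ⟨Equiv.ofBijective φ hbij, fun _ => rfl⟩
  have hEc : Continuous E := by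
    have : (E : K.real → M) = φ := funext hE
    rw [this]
    exact hcont
  refine ⟨m, K, hEc.homeoOfEquivCompactToT2, v, ?_⟩
  intro x
  have e2 : hEc.homeoOfEquivCompactToT2 x = φ x := hE x
  rw [e2]
  exact hfφ x

end T7

end TightRP
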