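import Pool.Agent.Lib.MP_7cdc3e_gt.T7.Spec

/-!
# MP_7cdc3e_gt, T7: the map is injective (Inj)

If finitely many cells `{g_i = 0}` cover the image and `f` is injective on each cell, then `f`
is injective.
-/

open Set Module

namespace TightRP

namespace T7

theorem tInj : S_Inj := by
  intro M N ι f g hc y z hyz
  obtain ⟨i, hi⟩ := hc.cov z
  have hy : g i (f y) = 0 := by rw [hyz]; exact hi
  exact hc.inj i hy hi hyz

end T7

end TightRP
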