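import Pool.Agent.Lib.MP_7cdc3e_gt.T7.Spec

/-! # T7/Ker: a regular point sees a subset of the kernel -/

set_option autoImplicit false

open Module

namespace TightRP

namespace T7

theorem tKer (h1 : S_Ray) : S_Ker := by
  classical
  intro M V _ _ _ _ e P R T nu H A z hz y hy hne hsub
  have hRay := h1 M V e P R T nu H z hz y hy
  -- a ray of `z` which does not vanish at `y`
  have hex : ∃ g ∈ T z, e y g ≠ 0 := by
    by_contra hno
    push Not at hno
    apply hne
    apply Finset.eq_of_subset_of_card_le
    · intro g hg
      apply hRay (fun a => if a = g then 1 else 0) (fun a => by split_ifs <;> norm_num) _ g hg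
        (by simp)
      have h2 : ∑ a ∈ T z, (if a = g then (1 : ℝ) else 0) • a = g := by
        rw [Finset.sum_eq_single g]
        · simp
        · intro b _ hb
          simp [hb]
        · intro h
          exact absurd hg h
      rw [h2]
      exact hno g hg
    · rw [H.card z hz, H.card y hy]
  obtain ⟨φ, hφ0, hφz, hφy, hφP⟩ := H.meet z hz y hex
  obtain ⟨c, hc, hφc⟩ := H.gen z hz φ hφ0 hφz
  have hval : ∀ x, e x φ = ∑ a ∈ T z, c a * e x a := by
    intro x
    rw [hφc, map_sum]
    apply Finset.sum_congr rfl
    intro a _
    rw [map_smul, smul_eq_mul]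
  refine ⟨(T z).filter (fun a => 0 < c a), ?_, ?_, ?_⟩
  · intro a ha
    rw [Finset.mem_filter] at ha
    apply hsub
    rw [Finset.mem_inter]
    refine ⟨ha.1, hRay c hc ?_ a ha.1 ha.2⟩
    rw [← hφc]
    exact hφy
  · intro a ha
    rw [Finset.mem_filter] at ha
    have h2 : ∑ a ∈ T z, c a * e y a = 0 := by rw [← hval, hφy]
    have h3 := (Finset.sum_eq_zero_iff_of_nonneg (fun x hx =>
      mul_nonneg (hc x) (H.pos z hz x hx y))).mp h2 a ha.1
    rcases mul_eq_zero.mp h3 with h4 | h4
    · exact absurd h4 ha.2.ne'
    · exact h4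
  · have hset : {x | ∃ a ∈ (T z).filter (fun a => 0 < c a), 0 < e x a} = {x | 0 < e x φ} := by
      ext x
      simp only [Set.mem_ofPred_eq, Finset.mem_filter]
      rw [hval]
      constructor
      · rintro ⟨a, ⟨ha, hca⟩, hxa⟩
        apply Finset.sum_pos' (fun b hb => mul_nonneg (hc b) (H.pos z hz b hb x))
        exact ⟨a, ha, mul_pos hca hxa⟩
      · intro hpos
        by_contra hno
        push Not at hno
        have : ∑ a ∈ T z, c a * e x a = 0 := by
          apply Finset.sum_eq_zero
          intro a ha
          rcases (hc a).eq_or_lt with h0 | h0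
          · rw [← h0, zero_mul]
          · have h5 := hno a ⟨ha, h0⟩
            have h6 := H.pos z hz a ha x
            rw [le_antisymm h5 h6, mul_zero]
        linarith
    rw [hset]
    exact hφP

end T7

end TightRP
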