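import Pool.Agent.Lib.MP_7cdc3e_gt.T7.Spec

/-! # T7/Min: minimal covers -/

set_option autoImplicit false

open Module

namespace TightRP

namespace T7

theorem tMin : S_Min := by
  classical
  intro M ι _ Q hQ
  let G : Set (Set ι) := {J | ∀ x, ∃ i ∈ J, Q i x}
  have hG : G.Finite := Set.toFinite G
  have hne : G.Nonempty := ⟨Set.univ, fun x => by
    obtain ⟨i, hi⟩ := hQ x
    exact ⟨i, Set.mem_univ i, hi⟩⟩
  obtain ⟨J, hJ⟩ := hG.exists_minimal hne
  refine ⟨J, hJ.1, ?_⟩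
  intro i hi
  by_contra hno
  push Not at hno
  have h1 : J \ {i} ∈ G := by
    intro x
    obtain ⟨j, hj, hjx⟩ := hJ.1 x
    by_cases hji : j = i
    · subst hji
      obtain ⟨k, hk, hkj, hkx⟩ := hno x hjx
      exact ⟨k, ⟨hk, hkj⟩, hkx⟩
    · exact ⟨j, ⟨hj, hji⟩, hjx⟩
  have h2 : J ≤ J \ {i} := hJ.2 h1 Set.sdiff_subset
  exact (h2 hi).2 rfl

end T7

end TightRP
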