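import Pool.Agent.Lib.MP_7cdc3e_gt.T7.Spec

/-!
# MP_7cdc3e_gt, T7: optimal solutions exist (S_OEx)
-/

set_option autoImplicit false

open Module

namespace TightRP

namespace T7

theorem tOEx : S_OEx := by
  intro m N v ω x hne
  have hcl : IsClosed (Feas v x) := by
    have h1 : IsClosed {t : Fin m → ℝ | ∀ j, 0 ≤ t j} := by
      have : {t : Fin m → ℝ | ∀ j, 0 ≤ t j} = ⋂ j, {t | 0 ≤ t j} := by
        ext t; simp
      rw [this]
      exact isClosed_iInter fun j => isClosed_le continuous_const (continuous_apply j)
    have h2 : IsClosed {t : Fin m → ℝ | ∑ j, t j = 1} :=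
      isClosed_eq (continuous_finset_sum _ fun j _ => continuous_apply j) continuous_const
    have h3 : IsClosed {t : Fin m → ℝ | ∑ j, t j • v j = x} :=
      isClosed_eq (continuous_finset_sum _ fun j _ => (continuous_apply j).smul continuous_const)
        continuous_const
    exact h1.inter (h2.inter h3)
  have hb : Bornology.IsBounded (Feas v x) := by
    refine (Metric.isBounded_iff_subset_closedBall (0 : Fin m → ℝ)).mpr ⟨1, fun t ht => ?_⟩
    rw [mem_closedBall_zero_iff]
    refine (pi_norm_le_iff_of_nonneg zero_le_one).mpr fun j => ?_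
    rw [Real.norm_of_nonneg (ht.1 j), ← ht.2.1]
    exact Finset.single_le_sum (fun j _ => ht.1 j) (Finset.mem_univ j)
  have hcpt : IsCompact (Feas v x) := Metric.isCompact_of_isClosed_isBounded hcl hb
  obtain ⟨t, ht, hmin⟩ := hcpt.exists_isMinOn hne (f := fun t => ∑ j, ω j * t j)
    (continuous_finset_sum _ fun j _ => continuous_const.mul (continuous_apply j)).continuousOn
  exact ⟨t, ht, fun t' ht' => hmin ht'⟩

end T7

end TightRP
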