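import Pool.Agent.Lib.MP_7cdc3e_gt.T7.Spec

/-!
# MP_7cdc3e_gt, T7: supports of optimal solutions are independent (S_OInd)
-/

set_option autoImplicit false

open Module

namespace TightRP

namespace T7

private theorem oInd_small {ι : Type} (a b : ι → ℝ) (S : Finset ι) (h : ∀ j ∈ S, 0 < a j) :
    ∃ ε > 0, ∀ j ∈ S, ε * |b j| ≤ a j := by
  classical
  induction S using Finset.induction_on with
  | empty => exact ⟨1, one_pos, fun j hj => absurd hj (Finset.notMem_empty j)⟩
  | @insert i S _ ih =>
    obtain ⟨ε, hε, h1⟩ := ih (fun j hj => h j (Finset.mem_insert_of_mem hj))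
    have hi := h i (Finset.mem_insert_self i S)
    have hb : 0 < |b i| + 1 := by positivity
    refine ⟨min ε (a i / (|b i| + 1)), lt_min hε (div_pos hi hb), fun j hj => ?_⟩
    rcases Finset.mem_insert.mp hj with rfl | hj
    · calc min ε (a j / (|b j| + 1)) * |b j| ≤ a j / (|b j| + 1) * |b j| :=
            mul_le_mul_of_nonneg_right (min_le_right _ _) (abs_nonneg _)
        _ ≤ a j / (|b j| + 1) * (|b j| + 1) :=
            mul_le_mul_of_nonneg_left (by linarith) (div_pos hi hb).le
        _ = a j := by field_simp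
    · exact (mul_le_mul_of_nonneg_right (min_le_left _ _) (abs_nonneg _)).trans (h1 j hj)

theorem tOInd : S_OInd := by
  classical
  intro m N v ω x t hG hO
  by_contra hc
  obtain ⟨δ, d0, d1, d2, d3⟩ := hG (supp t) hc
  obtain ⟨⟨f0, f1, f2⟩, hmin⟩ := hO
  have hpos : ∀ j ∈ supp t, 0 < t j := by
    intro j hj
    exact lt_of_le_of_ne (f0 j) (Ne.symm (Finset.mem_filter.mp hj).2)
  obtain ⟨ε, hε, hsm⟩ := oInd_small t δ (supp t) hpos
  have key : ∀ r : ℝ, |r| = ε → (fun j => t j + r * δ j) ∈ Feas v x := by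
    intro r hr
    refine ⟨fun j => ?_, ?_, ?_⟩
    · by_cases hj : j ∈ supp t
      · have h1 := hsm j hj
        have h2 : |r * δ j| ≤ t j := by rw [abs_mul, hr]; exact h1
        have h3 := neg_abs_le (r * δ j)
        show 0 ≤ t j + r * δ j
        linarith
      · show 0 ≤ t j + r * δ j
        rw [d0 j hj, mul_zero, add_zero]
        exact f0 j
    · show ∑ j, (t j + r * δ j) = 1
      rw [Finset.sum_add_distrib, ← Finset.mul_sum, d1, f1, mul_zero, add_zero]
    · show ∑ j, (t j + r * δ j) • v j = x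
      simp only [add_smul, mul_smul]
      rw [Finset.sum_add_distrib, ← Finset.smul_sum, d2, f2, smul_zero, add_zero]
  have hcost : ∀ r : ℝ, ∑ j, ω j * (t j + r * δ j) = ∑ j, ω j * t j + r * ∑ j, ω j * δ j := by
    intro r
    rw [Finset.mul_sum, ← Finset.sum_add_distrib]
    refine Finset.sum_congr rfl fun j _ => ?_
    ring
  rcases lt_or_gt_of_ne d3 with h | h
  · have h1 := hmin _ (key ε (abs_of_pos hε))
    simp only [hcost] at h1
    nlinarith
  · have h1 := hmin _ (key (-ε) (by rw [abs_neg, abs_of_pos hε]))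
    simp only [hcost] at h1
    nlinarith

end T7

end TightRP
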