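import Pool.Agent.Lib.MP_7cdc3e_gt.T7.Spec

/-!
# MP_7cdc3e_gt, T7: sub-supports are optimal (S_OSub)
-/

set_option autoImplicit false

open Module

namespace TightRP

namespace T7

private theorem oSub_small {ι : Type} (a b : ι → ℝ) (S : Finset ι) (h : ∀ j ∈ S, 0 < a j) :
    ∃ ε > 0, ∀ j ∈ S, ε * |b j| ≤ a j := by
  classical
  induction S using Finset.induction_on with
  | empty => exact ⟨1, one_pos, fun j hj => absurd hj (Finset.notMem_empty j)⟩
  | @insert i S _ ih =>
    obtain ⟨ε, hε, h1⟩ := ih (fun j hj => h j (Finset.mem_insert_of_mem hj))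
    have hi := h i (Finset.mem_insert_self i S)
    have hb : 0 < |b i| + 1 := by positivity
    refine ⟨min ε (a i / (|b i| + 1)), lt_min hε (div_pos hi hb), fun j hj => ?_⟩
    rcases Finset.mem_insert.mp hj with rfl | hj
    · calc min ε (a j / (|b j| + 1)) * |b j| ≤ a j / (|b j| + 1) * |b j| :=
            mul_le_mul_of_nonneg_right (min_le_right _ _) (abs_nonneg _)
        _ ≤ a j / (|b j| + 1) * (|b j| + 1) :=
            mul_le_mul_of_nonneg_left (by linarith) (div_pos hi hb).le
        _ = a j := by field_simp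
    · exact (mul_le_mul_of_nonneg_right (min_le_left _ _) (abs_nonneg _)).trans (h1 j hj)

theorem tOSub : S_OSub := by
  classical
  intro m N v ω x t t' hO h0 h1 hsub
  obtain ⟨⟨f0, f1, f2⟩, hmin⟩ := id hO
  refine ⟨⟨h0, h1, rfl⟩, fun t'' ht'' => ?_⟩
  by_contra hlt
  rw [not_le] at hlt
  obtain ⟨g0, g1, g2⟩ := ht''
  have hpos : ∀ j ∈ supp t, 0 < t j := by
    intro j hj
    exact lt_of_le_of_ne (f0 j) (Ne.symm (Finset.mem_filter.mp hj).2)
  obtain ⟨ε, hε, hsm⟩ := oSub_small t t' (supp t) hpos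
  have hfe : (fun j => t j + ε * (t'' j - t' j)) ∈ Feas v x := by
    refine ⟨fun j => ?_, ?_, ?_⟩
    · show 0 ≤ t j + ε * (t'' j - t' j)
      have h2 : 0 ≤ ε * t'' j := mul_nonneg hε.le (g0 j)
      by_cases hj : j ∈ supp t
      · have h3 := hsm j hj
        rw [abs_of_nonneg (h0 j)] at h3
        linarith
      · have h3 : t' j = 0 := by
          by_contra h4
          exact hj (hsub (Finset.mem_filter.mpr ⟨Finset.mem_univ j, h4⟩))
        rw [h3, sub_zero]
        have := f0 j
        linarith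
    · show ∑ j, (t j + ε * (t'' j - t' j)) = 1
      rw [Finset.sum_add_distrib, ← Finset.mul_sum, Finset.sum_sub_distrib, f1, g1, h1]
      ring
    · show ∑ j, (t j + ε * (t'' j - t' j)) • v j = x
      simp only [add_smul, mul_smul, sub_smul]
      rw [Finset.sum_add_distrib, ← Finset.smul_sum, Finset.sum_sub_distrib, f2, g2, sub_self,
        smul_zero, add_zero]
  have h4 := hmin _ hfe
  have h5 : ∑ j, ω j * (t j + ε * (t'' j - t' j)) =
      ∑ j, ω j * t j + ε * (∑ j, ω j * t'' j - ∑ j, ω j * t' j) := by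
    rw [← Finset.sum_sub_distrib, Finset.mul_sum, ← Finset.sum_add_distrib]
    refine Finset.sum_congr rfl fun j _ => ?_
    ring
  rw [h5] at h4
  have h6 : ε * (∑ j, ω j * t'' j - ∑ j, ω j * t' j) < 0 :=
    mul_neg_of_pos_of_neg hε (by linarith)
  linarith

end T7

end TightRP
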