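import Pool.Agent.Lib.MP_7cdc3e_gt.T7.Spec

/-!
# MP_7cdc3e_gt, T7: uniqueness of optimal solutions (S_OUn)
-/

set_option autoImplicit false

open Module

namespace TightRP

namespace T7

theorem tOUn (h1 : S_OInd) : S_OUn := by
  classical
  intro m N v ω x t t' hG hO hO'
  obtain ⟨⟨f0, f1, f2⟩, hmin⟩ := id hO
  obtain ⟨⟨g0, g1, g2⟩, hmin'⟩ := id hO'
  have hc : ∑ j, ω j * t j = ∑ j, ω j * t' j :=
    le_antisymm (hmin _ hO'.1) (hmin' _ hO.1)
  have hs : Opt v ω x (fun j => (t j + t' j) / 2) := by
    refine ⟨⟨fun j => ?_, ?_, ?_⟩, fun t'' ht'' => ?_⟩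
    · have := f0 j
      have := g0 j
      show 0 ≤ (t j + t' j) / 2
      linarith
    · show ∑ j, (t j + t' j) / 2 = 1
      rw [← Finset.sum_div, Finset.sum_add_distrib, f1, g1]
      norm_num
    · show ∑ j, ((t j + t' j) / 2) • v j = x
      have h2 : ∀ j, ((t j + t' j) / 2) • v j = (1 / 2 : ℝ) • (t j • v j + t' j • v j) := by
        intro j
        rw [← add_smul, smul_smul]
        congr 1
        ring
      simp only [h2]
      rw [← Finset.smul_sum, Finset.sum_add_distrib, f2, g2, ← two_smul ℝ x, smul_smul]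
      norm_num
    · have h2 : ∑ j, ω j * ((t j + t' j) / 2) = ∑ j, ω j * t j := by
        have h3 : ∑ j, ω j * ((t j + t' j) / 2) = (∑ j, ω j * t j + ∑ j, ω j * t' j) / 2 := by
          rw [← Finset.sum_add_distrib, Finset.sum_div]
          refine Finset.sum_congr rfl fun j _ => ?_
          ring
        rw [h3, ← hc]
        ring
      rw [h2]
      exact hmin t'' ht''
  have hind := h1 m N v ω x _ hG hs
  rw [affineIndependent_iff] at hind
  have hz : ∀ j, j ∉ supp (fun j => (t j + t' j) / 2) → t j - t' j = 0 := by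
    intro j hj
    have h2 : (t j + t' j) / 2 = 0 := by
      by_contra h3
      exact hj (Finset.mem_filter.mpr ⟨Finset.mem_univ j, h3⟩)
    have := f0 j
    have := g0 j
    linarith
  have hsum : ∀ {E : Type} [AddCommMonoid E] (F : Fin m → E),
      (∀ j, j ∉ supp (fun j => (t j + t' j) / 2) → F j = 0) →
      ∑ j : supp (fun j => (t j + t' j) / 2), F j = ∑ j, F j := by
    intro E _ F hF
    rw [Finset.sum_coe_sort (supp (fun j => (t j + t' j) / 2)) F]
    exact Finset.sum_subset (Finset.subset_univ _) (fun j _ hj => hF j hj)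
  have hall := hind Finset.univ (fun j => t j - t' j)
    (by
      rw [hsum (fun j => t j - t' j) hz, Finset.sum_sub_distrib, f1, g1, sub_self])
    (by
      rw [hsum (fun j => (t j - t' j) • v j) (fun j hj => by rw [hz j hj, zero_smul])]
      simp only [sub_smul]
      rw [Finset.sum_sub_distrib, f2, g2, sub_self])
  funext j
  by_cases hj : j ∈ supp (fun j => (t j + t' j) / 2)
  · exact sub_eq_zero.mp (hall ⟨j, hj⟩ (Finset.mem_univ _))
  · exact sub_eq_zero.mp (hz j hj)

end T7

end TightRP
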