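import Pool.Agent.Lib.MP_7cdc3e_gt.T7.Spec

/-! # T7/Pol: the result of part G -/

set_option autoImplicit false

open Module

namespace TightRP

namespace T7

theorem tPol (h1 : S_Inj) (h2 : S_Min) (h3 : S_Ver) (h4 : S_Hom) : S_Pol := by
  classical
  intro M _ _ _ N ι _ f g hM hf H
  obtain ⟨J, hJ1, hJ2⟩ := h2 M ι (fun i x => g i (f x) = 0) H.cov
  have HJ : Cells f (fun i : J => g i) := by
    refine ⟨fun i x => H.pos i x, ?_, fun i => H.inj i, fun i => H.cvx i⟩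
    intro x
    obtain ⟨i, hi, hix⟩ := hJ1 x
    exact ⟨⟨i, hi⟩, hix⟩
  obtain ⟨m, v, hv⟩ := h3 M N J f (fun i : J => g i) hM hf HJ (by
    rintro ⟨i, hi⟩
    obtain ⟨x, hx, hxj⟩ := hJ2 i hi
    refine ⟨x, ?_⟩
    rintro ⟨j, hj⟩ hji
    apply hxj j hj
    intro h
    exact hji (Subtype.ext h))
  exact h4 M m N J f v (fun i : J => g i) hf (h1 M N J f (fun i : J => g i) HJ) hv

end T7

end TightRP
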