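import Pool.Agent.Lib.MP_7cdc3e_gt.T7.Spec

/-!
# MP_7cdc3e_gt, T7: relative interior points exist
-/

set_option autoImplicit false

open Module

namespace TightRP

namespace T7

/-- **RIex**: the relative interior of a nonempty convex set is not empty -/
theorem tRIex : S_RIex := by
  intro N K hK hne
  obtain ⟨p, hp⟩ := hne.intrinsicInterior hK
  refine ⟨p, ?_⟩
  rw [mem_intrinsicInterior] at hp
  obtain ⟨y, hy, rfl⟩ := hp
  rw [mem_interior_iff_mem_nhds, Metric.mem_nhds_iff] at hy
  obtain ⟨ε, hε, hball⟩ := hy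
  refine ⟨ε, hε, fun w hw hwε => ?_⟩
  have hwd : w ∈ (affineSpan ℝ K).direction := by rwa [direction_affineSpan]
  have hmem : w +ᵥ (y : En N) ∈ affineSpan ℝ K :=
    AffineSubspace.vadd_mem_of_mem_direction hwd y.2
  have hin : (⟨w +ᵥ (y : En N), hmem⟩ : affineSpan ℝ K) ∈ Metric.ball y ε := by
    rw [Metric.mem_ball, Subtype.dist_eq, dist_eq_norm]
    simpa using hwε
  have := hball hin
  have h2 : w +ᵥ (y : En N) ∈ K := this
  rwa [vadd_eq_add, add_comm] at h2

end T7

end TightRP
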