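import Pool.Agent.Lib.MP_7cdc3e_gt.T7.Spec

/-! # T7/Ray: extreme rays of two simplicial normal cones -/

set_option autoImplicit false

open Module

namespace TightRP

namespace T7

private theorem ray_ind {V : Type} [AddCommGroup V] [Module ℝ V] (s : Finset V)
    (h : LinearIndependent ℝ (fun g : s => (g : V))) (u : V → ℝ)
    (h0 : ∑ a ∈ s, u a • a = 0) : ∀ a ∈ s, u a = 0 := by
  intro a ha
  have h1 := Fintype.linearIndependent_iff.mp h (fun i => u i) (by
    rw [Finset.sum_coe_sort s (fun a => u a • a)]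
    exact h0)
  exact h1 ⟨a, ha⟩

theorem tRay : S_Ray := by
  classical
  intro M V _ _ _ e P R T nu H z hz y hy c hc hsum a ha hca
  -- `e y a = 0`
  have hya : e y a = 0 := by
    have h1 : ∑ x ∈ T z, c x * e y x = 0 := by
      rw [map_sum] at hsum
      rw [← hsum]
      apply Finset.sum_congr rfl
      intro x _
      rw [map_smul, smul_eq_mul]
    have h2 := (Finset.sum_eq_zero_iff_of_nonneg (fun x hx =>
      mul_nonneg (hc x) (H.pos z hz x hx y))).mp h1 a ha
    rcases mul_eq_zero.mp h2 with h3 | h3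
    · exact absurd h3 hca.ne'
    · exact h3
  obtain ⟨d, hd, hda⟩ := H.gen y hy a (fun x => H.pos z hz a ha x) hya
  have hzb : ∀ b ∈ T y, 0 < d b → e z b = 0 := by
    intro b hb hdb
    have h0 : e z a = 0 := H.zero z hz a ha
    have h1 : ∑ x ∈ T y, d x * e z x = 0 := by
      rw [hda, map_sum] at h0
      rw [← h0]
      apply Finset.sum_congr rfl
      intro x _
      rw [map_smul, smul_eq_mul]
    have h2 := (Finset.sum_eq_zero_iff_of_nonneg (fun x hx =>
      mul_nonneg (hd x) (H.pos y hy x hx z))).mp h1 b hb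
    rcases mul_eq_zero.mp h2 with h3 | h3
    · exact absurd h3 hdb.ne'
    · exact h3
  have hC : ∀ b : V, ∃ C : V → ℝ, (∀ x, 0 ≤ C x) ∧
      (b ∈ T y → 0 < d b → b = ∑ x ∈ T z, C x • x) := by
    intro b
    by_cases hb : b ∈ T y ∧ 0 < d b
    · obtain ⟨C, hC, hCb⟩ := H.gen z hz b (fun x => H.pos y hy b hb.1 x) (hzb b hb.1 hb.2)
      exact ⟨C, hC, fun _ _ => hCb⟩
    · exact ⟨fun _ => 0, fun _ => le_rfl, fun h1 h2 => absurd ⟨h1, h2⟩ hb⟩
  choose C hC0 hCb using hC
  have haE : a = ∑ x ∈ T z, (∑ b ∈ T y, d b * C b x) • x := by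
    have h1 : a = ∑ b ∈ T y, ∑ x ∈ T z, (d b * C b x) • x := by
      conv_lhs => rw [hda]
      apply Finset.sum_congr rfl
      intro b hb
      rcases (hd b).eq_or_lt with h0 | h0
      · rw [← h0]
        simp
      · have h2 : ∑ x ∈ T z, (d b * C b x) • x = d b • ∑ x ∈ T z, C b x • x := by
          rw [Finset.smul_sum]
          apply Finset.sum_congr rfl
          intro x _
          rw [mul_smul]
        rw [h2, ← hCb b hb h0]
    rw [Finset.sum_comm] at h1
    conv_lhs => rw [h1]
    apply Finset.sum_congr rfl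
    intro x _
    rw [Finset.sum_smul]
  have hE := ray_ind (T z) (H.ind z hz)
    (fun x => (∑ b ∈ T y, d b * C b x) - if x = a then 1 else 0) (by
      simp only [sub_smul]
      rw [Finset.sum_sub_distrib, ← haE]
      have h1 : ∑ x ∈ T z, (if x = a then (1 : ℝ) else 0) • x = a := by
        rw [Finset.sum_eq_single a]
        · simp
        · intro b _ hb
          simp [hb]
        · intro h
          exact absurd ha h
      rw [h1, sub_self])
  have ha0 : a ≠ 0 := (H.ind z hz).ne_zero ⟨a, ha⟩
  obtain ⟨b, hb, hdb⟩ : ∃ b ∈ T y, 0 < d b := by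
    by_contra hne
    push Not at hne
    apply ha0
    rw [hda]
    apply Finset.sum_eq_zero
    intro b hb
    have : d b = 0 := le_antisymm (hne b hb) (hd b)
    rw [this, zero_smul]
  have hCx : ∀ x ∈ T z, x ≠ a → C b x = 0 := by
    intro x hx hxa
    have h1 := hE x hx
    simp only [hxa, if_false, sub_zero] at h1
    have h2 := (Finset.sum_eq_zero_iff_of_nonneg (fun b _ =>
      mul_nonneg (hd b) (hC0 b x))).mp h1 b hb
    rcases mul_eq_zero.mp h2 with h3 | h3
    · exact absurd h3 hdb.ne'
    · exact h3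
  have hba : b = C b a • a := by
    have h1 := hCb b hb hdb
    rw [Finset.sum_eq_single a] at h1
    · exact h1
    · intro x hx hxa
      rw [hCx x hx hxa, zero_smul]
    · intro h
      exact absurd ha h
  have hb0 : b ≠ 0 := (H.ind y hy).ne_zero ⟨b, hb⟩
  have hCpos : 0 < C b a := by
    rcases (hC0 b a).eq_or_lt with h0 | h0
    · exfalso
      apply hb0
      rw [hba, ← h0, zero_smul]
    · exact h0
  have hC1 : C b a = 1 := H.ray a (H.norm z hz a ha) (C b a) hCpos (by
    rw [← hba]
    exact H.norm y hy b hb)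
  rw [hC1, one_smul] at hba
  rw [← hba]
  exact hb

end T7

end TightRP
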