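import Pool.Agent.Lib.MP_7cdc3e_gt.T7.Spec

/-! The realization of a finite complex is compact. -/

namespace TightRP

namespace T7

theorem tRc : S_Rc := by
  classical
  intro m K
  have h1 : K.real = ⋃ S ∈ K.faces, (stdSimplex ℝ (Fin m) ∩ {t : Fin m → ℝ | ∀ j, j ∉ S → t j = 0}) := by
    ext t
    simp only [Set.mem_iUnion, Set.mem_inter_iff, Set.mem_setOf_eq, exists_prop]
    constructor
    · rintro ⟨h0, hs, hf⟩
      refine ⟨supp t, hf, ⟨h0, hs⟩, ?_⟩
      intro j hj
      by_contra h
      apply hj
      unfold supp
      rw [Finset.mem_filter]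
      exact ⟨Finset.mem_univ j, h⟩
    · rintro ⟨S, hS, ⟨h0, hs⟩, hz⟩
      refine ⟨h0, hs, ?_⟩
      apply K.down S hS
      · intro j hj
        by_contra h
        unfold supp at hj
        rw [Finset.mem_filter] at hj
        exact hj.2 (hz j h)
      · by_contra h
        rw [Finset.not_nonempty_iff_eq_empty] at h
        have h2 : ∀ j, t j = 0 := by
          intro j
          by_contra h3
          have h4 : j ∈ supp t := by
            unfold supp
            rw [Finset.mem_filter]
            exact ⟨Finset.mem_univ j, h3⟩
          rw [h] at h4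
          exact absurd h4 (Finset.notMem_empty j)
        rw [Finset.sum_congr rfl (fun j _ => h2 j), Finset.sum_const_zero] at hs
        exact zero_ne_one hs
  rw [h1]
  apply (Set.toFinite K.faces).isCompact_biUnion
  intro S _
  apply (isCompact_stdSimplex (𝕜 := ℝ) (Fin m)).inter_right
  have h2 : {t : Fin m → ℝ | ∀ j, j ∉ S → t j = 0} = ⋂ j : Fin m, ⋂ _ : j ∉ S, {t | t j = 0} := by
    ext t
    simp only [Set.mem_iInter, Set.mem_setOf_eq]
  rw [h2]
  apply isClosed_iInter
  intro j
  apply isClosed_iInter
  intro _
  exact isClosed_eq (continuous_apply j) continuous_const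

end T7

end TightRP
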