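import Pool.Agent.Lib.MP_7cdc3e_gt.T7.Spec

/-!
# MP_7cdc3e_gt, part T7: relative interior points of three-dimensional cells
-/

set_option autoImplicit false

open Module

namespace TightRP

namespace T7

theorem tRin : S_Rin := by
  intro M _ N f X O hM hf hinj hO hOX hdim x hx
  have hfin : finrank ℝ (vectorSpan ℝ (f '' X)) = finrank ℝ (EuclideanSpace ℝ (Fin 3)) := by
    rw [hdim, finrank_euclideanSpace_fin]
  let L : vectorSpan ℝ (f '' X) ≃ₗ[ℝ] EuclideanSpace ℝ (Fin 3) :=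
    LinearEquiv.ofFinrankEq _ _ hfin
  have hLc : Continuous L := L.toLinearMap.continuous_of_finiteDimensional
  have hmem : ∀ y ∈ O, f y - f x ∈ vectorSpan ℝ (f '' X) := fun y hy =>
    vsub_mem_vectorSpan ℝ (Set.mem_image_of_mem f (hOX hy)) (Set.mem_image_of_mem f (hOX hx))
  classical
  let F : M → EuclideanSpace ℝ (Fin 3) := fun y =>
    if h : f y - f x ∈ vectorSpan ℝ (f '' X) then L ⟨_, h⟩ else 0
  have hF : ∀ y (h : f y - f x ∈ vectorSpan ℝ (f '' X)), F y = L ⟨_, h⟩ := fun y h => dif_pos h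
  have hFc : ContinuousOn F O := by
    rw [continuousOn_iff_continuous_domRestrict]
    have h2 : O.domRestrict F = fun y : O => L ⟨f y.1 - f x, hmem y.1 y.2⟩ := by
      funext y
      exact hF y.1 (hmem y.1 y.2)
    rw [h2]
    refine hLc.comp (Continuous.subtype_mk ?_ _)
    exact (hf.comp continuous_subtype_val).sub continuous_const
  have hFi : Set.InjOn F O := by
    intro y hy y' hy' h
    rw [hF y (hmem y hy), hF y' (hmem y' hy')] at h
    have h3 := congrArg Subtype.val (L.injective h)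
    exact hinj (hOX hy) (hOX hy') (sub_left_injective h3)
  have hE : ∀ x : EuclideanSpace ℝ (Fin 3), ∃ U : Set (EuclideanSpace ℝ (Fin 3)),
      IsOpen U ∧ x ∈ U ∧ Nonempty (U ≃ₜ EuclideanSpace ℝ (Fin 3)) := fun x =>
    ⟨Set.univ, isOpen_univ, trivial, ⟨Homeomorph.Set.univ _⟩⟩
  have hU : IsOpen (F '' O) := InvDom.isOpen_image_of_locEuc hM hE F O hO hFc hFi
  have h0 : L 0 ∈ F '' O := by
    refine ⟨x, hx, ?_⟩
    rw [hF x (hmem x hx)]
    congr 1
    exact Subtype.ext (sub_self _)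
  obtain ⟨ε, hε, hball⟩ := Metric.isOpen_iff.1 (hU.preimage hLc) 0 h0
  refine ⟨ε, hε, fun w hw hwε => ?_⟩
  have hwb : (⟨w, hw⟩ : vectorSpan ℝ (f '' X)) ∈ Metric.ball (0 : vectorSpan ℝ (f '' X)) ε := by
    rw [mem_ball_zero_iff]
    exact hwε
  obtain ⟨y, hy, hyw⟩ := hball hwb
  rw [hF y (hmem y hy)] at hyw
  have h4 : f y - f x = w := congrArg Subtype.val (L.injective hyw)
  refine ⟨y, hOX hy, ?_⟩
  rw [← h4]
  abel

end T7

end TightRP
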