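import Pool.Agent.Lib.MP_7cdc3e_gt.T7.Spec

/-! # T7/Ver: the vertices of the cells -/

set_option autoImplicit false

open Module

namespace TightRP

namespace T7

/-- a compact convex set with finitely many extreme points is their convex hull -/
private theorem ver_hull {N : ℕ} (K : Set (En N)) (hK : IsCompact K) (hc : Convex ℝ K)
    (hf : (K.extremePoints ℝ).Finite) : K = convexHull ℝ (K.extremePoints ℝ) := by
  have h1 := closure_convexHull_extremePoints hK hc
  have h2 : IsClosed (convexHull ℝ (K.extremePoints ℝ)) := Set.Finite.isClosed_convexHull (𝕜 := ℝ) hf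
  rw [h2.closure_eq] at h1
  exact h1.symm

theorem tVer (h1 : S_Wal) (h2 : S_Ext) : S_Ver := by
  classical
  intro M _ _ _ N ι _ f g hM hf H hpt
  let K : ι → Set (En N) := fun i => f '' {x | g i (f x) = 0}
  have hW : ∀ i, finrank ℝ (vectorSpan ℝ (K i)) = 3 ∧
      Wall (K i) (fun j : {j // j ≠ i} => g j) := fun i => h1 M N ι f g hM hf H i (hpt i)
  have hfin : ∀ i, ((K i).extremePoints ℝ).Finite := fun i => h2 N _ (K i) _ (hW i).2
  have hmem : ∀ i p, p ∈ K i ↔ p ∈ Set.range f ∧ g i p = 0 := by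
    intro i p
    constructor
    · rintro ⟨x, hx, rfl⟩
      exact ⟨⟨x, rfl⟩, hx⟩
    · rintro ⟨⟨x, rfl⟩, hx⟩
      exact ⟨x, hx, rfl⟩
  have hVfin : (⋃ i, (K i).extremePoints ℝ).Finite := Set.finite_iUnion hfin
  let V : Finset (En N) := hVfin.toFinset
  have hV : ∀ p, p ∈ V ↔ ∃ i, p ∈ (K i).extremePoints ℝ := by
    intro p
    simp [V]
  let v : Fin V.card → En N := fun j => (V.equivFin.symm j : En N)
  have hvV : ∀ j, v j ∈ V := fun j => (V.equivFin.symm j).2
  have hvinj : Function.Injective v := by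
    intro j l h
    exact V.equivFin.symm.injective (Subtype.ext h)
  have hvsurj : ∀ p ∈ V, ∃ j, v j = p := by
    intro p hp
    refine ⟨V.equivFin ⟨p, hp⟩, ?_⟩
    simp [v]
  have hvr : ∀ j, v j ∈ Set.range f := by
    intro j
    obtain ⟨i, hi⟩ := (hV (v j)).mp (hvV j)
    exact ((hmem i _).mp (extremePoints_subset hi)).1
  have hvK : ∀ i j, g i (v j) = 0 → v j ∈ K i := fun i j h => (hmem i _).mpr ⟨hvr j, h⟩
  have hKhull : ∀ i, K i ⊆ convexHull ℝ (v '' {j | g i (v j) = 0}) := by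
    intro i
    rw [ver_hull (K i) (hW i).2.cpt (hW i).2.cvx (hfin i)]
    apply convexHull_mono
    intro p hp
    obtain ⟨j, hj⟩ := hvsurj p ((hV p).mpr ⟨i, hp⟩)
    refine ⟨j, ?_, hj⟩
    show g i (v j) = 0
    rw [hj]
    exact ((hmem i p).mp (extremePoints_subset hp)).2
  have hsubK : ∀ i, v '' {j | g i (v j) = 0} ⊆ K i := by
    rintro i _ ⟨j, hj, rfl⟩
    exact hvK i j hj
  refine ⟨V.card, v, ⟨hvinj, ?_, ?_, ?_, ?_, ?_⟩⟩
  · intro i j
    obtain ⟨x, hx⟩ := hvr j
    rw [← hx]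
    exact H.pos i x
  · rintro _ ⟨x, rfl⟩
    obtain ⟨i, hi⟩ := H.cov x
    exact ⟨i, hi, hKhull i ((hmem i _).mpr ⟨⟨x, rfl⟩, hi⟩)⟩
  · intro i p hp
    have h3 : p ∈ K i := convexHull_min (hsubK i) (hW i).2.cvx hp
    exact ((hmem i p).mp h3).1
  · intro j
    obtain ⟨i, hi⟩ := (hV (v j)).mp (hvV j)
    refine ⟨i, ((hmem i _).mp (extremePoints_subset hi)).2, ?_⟩
    rw [(hW i).2.cvx.mem_extremePoints_iff_mem_sdiff_convexHull_sdiff] at hi
    intro hmem'
    apply hi.2
    apply convexHull_mono _ hmem'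
    rintro _ ⟨l, ⟨hl, hgl⟩, rfl⟩
    refine ⟨hvK i l hgl, ?_⟩
    intro h
    exact hl (hvinj h)
  · intro i S hS hind
    have hsub : Set.range (fun j : S => v j) ⊆ K i := by
      rintro _ ⟨j, rfl⟩
      exact hvK i j (hS j j.2)
    have h3 := hind.card_le_finrank_succ
    have h4 : finrank ℝ (vectorSpan ℝ (Set.range (fun j : S => v j))) ≤ 3 := by
      rw [← (hW i).1]
      exact Submodule.finrank_mono (vectorSpan_mono ℝ hsub)
    rw [Fintype.card_coe] at h3
    omega

end T7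

end TightRP
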