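import Pool.Agent.Lib.MP_7cdc3e_gt.T7.End
import Pool.Agent.Lib.MP_7cdc3e_gt.T7.Com
import Pool.Agent.Lib.MP_7cdc3e_gt.T7.Ray
import Pool.Agent.Lib.MP_7cdc3e_gt.T7.Ker
import Pool.Agent.Lib.MP_7cdc3e_gt.T7.Fin
import Pool.Agent.Lib.MP_7cdc3e_gt.T7.RIex
import Pool.Agent.Lib.MP_7cdc3e_gt.T7.Half
import Pool.Agent.Lib.MP_7cdc3e_gt.T7.Ext
import Pool.Agent.Lib.MP_7cdc3e_gt.T7.Dge
import Pool.Agent.Lib.MP_7cdc3e_gt.T7.Dle
import Pool.Agent.Lib.MP_7cdc3e_gt.T7.Rin
import Pool.Agent.Lib.MP_7cdc3e_gt.T7.Gen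
import Pool.Agent.Lib.MP_7cdc3e_gt.T7.OEx
import Pool.Agent.Lib.MP_7cdc3e_gt.T7.OInd
import Pool.Agent.Lib.MP_7cdc3e_gt.T7.OUn
import Pool.Agent.Lib.MP_7cdc3e_gt.T7.OSub
import Pool.Agent.Lib.MP_7cdc3e_gt.T7.Fce
import Pool.Agent.Lib.MP_7cdc3e_gt.T7.Fne
import Pool.Agent.Lib.MP_7cdc3e_gt.T7.Cpx
import Pool.Agent.Lib.MP_7cdc3e_gt.T7.Rc
import Pool.Agent.Lib.MP_7cdc3e_gt.T7.Hom
import Pool.Agent.Lib.MP_7cdc3e_gt.T7.Inj
import Pool.Agent.Lib.MP_7cdc3e_gt.T7.Min
import Pool.Agent.Lib.MP_7cdc3e_gt.T7.Wal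
import Pool.Agent.Lib.MP_7cdc3e_gt.T7.Ver
import Pool.Agent.Lib.MP_7cdc3e_gt.T7.Pol

/-!
# MP_7cdc3e_gt, part T7: everything together

`aFin`: there are only finitely many simplicial normal cones; `aPol`: maps with finitely many convex
cells are polyhedral; `polyhedral_of`: the result of part T7 for an abstract space of functions.
-/

set_option autoImplicit false

open Module

namespace TightRP

namespace T7

theorem aFin : S_Fin := tFin tCom (tKer tRay)

theorem aWal : S_Wal := tWal tDge (tDle tRIex) tRin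

theorem aPol : S_Pol :=
  have hOUn : S_OUn := tOUn tOInd
  have hCpx : S_Cpx := tCpx tOEx tOInd hOUn tOSub tFce tFne
  tPol tInj tMin (tVer aWal (tExt (tHalf tRIex))) (tHom tOEx hOUn tFne hCpx tRc tGen)

theorem aEnd : S_End := tEnd aFin aPol

/-- simplicial normal cones at a dense set of points and convex cells: the map is polyhedral.
`e y g` is the value at `y` of the function `g`, an affine function of `f y`. -/
theorem polyhedral_of {M : Type} [TopologicalSpace M] [CompactSpace M] [T2Space M] {N : ℕ}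
    {f : M → En N} (hM : LocEuc3 M) (hf : Continuous f) {V : Type} [AddCommGroup V] [Module ℝ V]
    {e : M → V →ₗ[ℝ] ℝ} {P : Set M → Prop} {R : Set M} {T : M → Finset V} {nu : Set V}
    (hT : Fam e P R T nu) (haff : ∀ g : V, ∃ A : En N →ᵃ[ℝ] ℝ, ∀ y, e y g = A (f y))
    (hcell : ∀ z ∈ R, Set.InjOn f {y | ∀ g ∈ T z, e y g = 0} ∧
      Convex ℝ (f '' {y | ∀ g ∈ T z, e y g = 0})) : Polyhedral f := by
  classical
  have hfin := aFin M V e P R T nu hT
  have hfin' : Finite (T '' R) := hfin.to_subtype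
  choose A hA using haff
  let g : (T '' R : Set _) → (En N →ᵃ[ℝ] ℝ) := fun t => A (∑ a ∈ t.1, a)
  have hsum : ∀ (t : (T '' R : Set _)) (y : M), g t (f y) = ∑ a ∈ t.1, e y a := by
    intro t y
    show A (∑ a ∈ t.1, a) (f y) = _
    rw [← hA, map_sum]
  have hpos : ∀ (t : (T '' R : Set _)), ∀ a ∈ t.1, ∀ y, 0 ≤ e y a := by
    rintro ⟨_, z, hz, rfl⟩ a ha y
    exact hT.pos z hz a ha y
  have hzero : ∀ (t : (T '' R : Set _)) (y : M), g t (f y) = 0 ↔ ∀ a ∈ t.1, e y a = 0 := by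
    intro t y
    rw [hsum, Finset.sum_eq_zero_iff_of_nonneg fun a ha => hpos t a ha y]
  refine aPol M N (T '' R : Set _) f g hM hf ?_
  refine ⟨?_, ?_, ?_, ?_⟩
  · intro t y
    rw [hsum]
    exact Finset.sum_nonneg fun a ha => hpos t a ha y
  · have hcl : IsClosed (⋃ t : (T '' R : Set _), {y | g t (f y) = 0}) := by
      apply isClosed_iUnion_of_finite
      intro t
      exact isClosed_eq ((g t).continuous_of_finiteDimensional.comp hf) continuous_const
    have hR : R ⊆ ⋃ t : (T '' R : Set _), {y | g t (f y) = 0} := by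
      intro z hz
      refine Set.mem_iUnion.2 ⟨⟨T z, z, hz, rfl⟩, ?_⟩
      exact (hzero _ _).2 fun a ha => hT.zero z hz a ha
    have huniv : (⋃ t : (T '' R : Set _), {y | g t (f y) = 0}) = Set.univ :=
      Set.eq_univ_of_univ_subset ((hT.dense.closure_eq).symm.subset.trans
        (closure_minimal hR hcl))
    intro x
    have hx : x ∈ ⋃ t : (T '' R : Set _), {y | g t (f y) = 0} := by
      rw [huniv]
      trivial
    obtain ⟨t, ht⟩ := Set.mem_iUnion.1 hx
    exact ⟨t, ht⟩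
  · rintro ⟨_, z, hz, rfl⟩
    have h : {y | g ⟨T z, z, hz, rfl⟩ (f y) = 0} = {y | ∀ a ∈ T z, e y a = 0} := by
      ext y
      exact hzero _ _
    rw [h]
    exact (hcell z hz).1
  · rintro ⟨_, z, hz, rfl⟩
    have h : {y | g ⟨T z, z, hz, rfl⟩ (f y) = 0} = {y | ∀ a ∈ T z, e y a = 0} := by
      ext y
      exact hzero _ _
    rw [h]
    exact (hcell z hz).2

end T7

end TightRP
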