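import Pool.Agent.Lib.MP_7cdc3e_gt.T7.Spec

/-!
# MP_7cdc3e_gt, part T7: the assembly

`S_End`: if the normal cones at the points of a dense set are simplicial and their cells are mapped
injectively onto convex sets, then the map is polyhedral.
-/

set_option autoImplicit false

open Module

namespace TightRP

namespace T7

/-- the value of an affine functional of `En N` at the point `f y` -/
noncomputable def ev {M : Type} {N : ℕ} (f : M → En N) (y : M) : (En N →ᵃ[ℝ] ℝ) →ₗ[ℝ] ℝ where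
  toFun g := g (f y)
  map_add' g h := by simp
  map_smul' c g := by simp

/-- simplicial normal cones at a dense set of points and cells: the map is polyhedral -/
def S_End : Prop := ∀ (M : Type) [TopologicalSpace M] [CompactSpace M] [T2Space M] (N : ℕ)
  (f : M → En N), LocEuc3 M → Continuous f →
  ∀ (P : Set M → Prop) (R : Set M) (T : M → Finset (En N →ᵃ[ℝ] ℝ)) (nu : Set (En N →ᵃ[ℝ] ℝ)),
  Fam (ev f) P R T nu →
  (∀ z ∈ R, Set.InjOn f {y | ∀ g ∈ T z, g (f y) = 0} ∧
    Convex ℝ (f '' {y | ∀ g ∈ T z, g (f y) = 0})) →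
  Polyhedral f

theorem tEnd (h1 : S_Fin) (h2 : S_Pol) : S_End := by
  intro M _ _ _ N f hM hf P R T nu hT hcell
  classical
  have hfin := h1 M (En N →ᵃ[ℝ] ℝ) (ev f) P R T nu hT
  haveI : Finite (T '' R) := hfin.to_subtype
  let g : (T '' R : Set _) → (En N →ᵃ[ℝ] ℝ) := fun t => ∑ a ∈ t.1, a
  have hsum : ∀ (t : (T '' R : Set _)) (y : M), g t (f y) = ∑ a ∈ t.1, a (f y) := by
    intro t y
    have h : ev f y (∑ a ∈ t.1, a) = ∑ a ∈ t.1, ev f y a := map_sum _ _ _
    exact h
  have hpos : ∀ (t : (T '' R : Set _)), ∀ a ∈ t.1, ∀ y, 0 ≤ a (f y) := by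
    rintro ⟨_, z, hz, rfl⟩ a ha y
    exact hT.pos z hz a ha y
  have hzero : ∀ (t : (T '' R : Set _)) (y : M), g t (f y) = 0 ↔ ∀ a ∈ t.1, a (f y) = 0 := by
    intro t y
    rw [hsum, Finset.sum_eq_zero_iff_of_nonneg fun a ha => hpos t a ha y]
  refine h2 M N (T '' R : Set _) f g hM hf ?_
  refine ⟨?_, ?_, ?_, ?_⟩
  · intro t y
    rw [hsum]
    exact Finset.sum_nonneg fun a ha => hpos t a ha y
  · -- cover
    have hcl : IsClosed (⋃ t : (T '' R : Set _), {y | g t (f y) = 0}) := by
      apply isClosed_iUnion_of_finite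
      intro t
      exact isClosed_eq ((g t).continuous_of_finiteDimensional.comp hf) continuous_const
    have hR : R ⊆ ⋃ t : (T '' R : Set _), {y | g t (f y) = 0} := by
      intro z hz
      refine Set.mem_iUnion.2 ⟨⟨T z, z, hz, rfl⟩, ?_⟩
      exact (hzero _ _).2 fun a ha => hT.zero z hz a ha
    have huniv : (⋃ t : (T '' R : Set _), {y | g t (f y) = 0}) = Set.univ :=
      Set.eq_univ_of_univ_subset ((hT.dense.closure_eq).symm.subset.trans
        (closure_minimal hR hcl))
    intro x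
    have hx : x ∈ ⋃ t : (T '' R : Set _), {y | g t (f y) = 0} := by
      rw [huniv]
      trivial
    obtain ⟨t, ht⟩ := Set.mem_iUnion.1 hx
    exact ⟨t, ht⟩
  · rintro ⟨_, z, hz, rfl⟩
    have h : {y | g ⟨T z, z, hz, rfl⟩ (f y) = 0} = {y | ∀ a ∈ T z, a (f y) = 0} := by
      ext y
      exact hzero _ _
    rw [h]
    exact (hcell z hz).1
  · rintro ⟨_, z, hz, rfl⟩
    have h : {y | g ⟨T z, z, hz, rfl⟩ (f y) = 0} = {y | ∀ a ∈ T z, a (f y) = 0} := by
      ext y
      exact hzero _ _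
    rw [h]
    exact (hcell z hz).2

end T7

end TightRP
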