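import Pool.Agent.Lib.MP_7cdc3e_gt.T7.Spec

/-! Generic costs exist. -/

namespace TightRP

namespace T7

open Polynomial in
private lemma gen_aux {m N : ℕ} (v : Fin m → En N) (S : Finset (Fin m))
    (hS : ¬ AffineIndependent ℝ (fun j : S => v j)) :
    ∃ δ : Fin m → ℝ, (∀ j, j ∉ S → δ j = 0) ∧ ∑ j, δ j = 0 ∧ ∑ j, δ j • v j = 0 ∧
      ∃ e, δ e ≠ 0 := by
  classical
  rw [affineIndependent_iff] at hS
  push Not at hS
  obtain ⟨s, w, hw0, hwv, e, he, hwe⟩ := hS
  obtain ⟨δ, hδ⟩ : ∃ δ : Fin m → ℝ, δ = fun j =>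
      if h : j ∈ S then (if (⟨j, h⟩ : S) ∈ s then w ⟨j, h⟩ else 0) else 0 := ⟨_, rfl⟩
  have hδS : ∀ j : S, δ j = if j ∈ s then w j else 0 := by
    intro j
    rw [hδ]
    beta_reduce
    rw [dif_pos j.2]
  have hout : ∀ j, j ∉ S → δ j = 0 := by
    intro j hj
    rw [hδ]
    beta_reduce
    rw [dif_neg hj]
  have key : ∀ (E : Type) [AddCommGroup E] [Module ℝ E] (u : Fin m → E),
      ∑ j, δ j • u j = ∑ j ∈ s, w j • u j := by
    intro E _ _ u
    have h1 : ∑ j, δ j • u j = ∑ j ∈ S, δ j • u j := by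
      symm
      apply Finset.sum_subset (Finset.subset_univ S)
      intro j _ hj
      rw [hout j hj, zero_smul]
    rw [h1, ← Finset.sum_coe_sort S (fun j => δ j • u j)]
    have h2 : ∀ j : S, δ j • u j = if j ∈ s then w j • u j else 0 := by
      intro j
      rw [hδS j]
      split_ifs with h
      · rfl
      · rw [zero_smul]
    rw [Finset.sum_congr rfl (fun j _ => h2 j)]
    rw [Finset.sum_ite_mem, Finset.univ_inter]
  refine ⟨δ, hout, ?_, ?_, e, ?_⟩
  · have h1 := key ℝ (fun _ => 1)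
    simp only [smul_eq_mul, mul_one] at h1
    rw [h1, hw0]
  · rw [key _ v, hwv]
  · rw [hδS e, if_pos he]
    exact hwe

open Polynomial in
theorem tGen : S_Gen := by
  classical
  intro m N v
  have hex : ∀ S : Finset (Fin m), ∃ δ : Fin m → ℝ, (¬ AffineIndependent ℝ (fun j : S => v j) →
      (∀ j, j ∉ S → δ j = 0) ∧ ∑ j, δ j = 0 ∧ ∑ j, δ j • v j = 0) ∧
      (∑ j : Fin m, C (δ j) * X ^ (j : ℕ) ≠ 0 ∨ AffineIndependent ℝ (fun j : S => v j)) := by
    intro S
    by_cases hS : AffineIndependent ℝ (fun j : S => v j)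
    · exact ⟨0, fun h => absurd hS h, Or.inr hS⟩
    · obtain ⟨δ, h1, h2, h3, e, he⟩ := gen_aux v S hS
      refine ⟨δ, fun _ => ⟨h1, h2, h3⟩, Or.inl ?_⟩
      intro h0
      apply he
      have h4 := congrArg (fun p : ℝ[X] => p.coeff (e : ℕ)) h0
      simp only [finsetSum_coeff, coeff_C_mul_X_pow, coeff_zero] at h4
      rw [Finset.sum_eq_single e] at h4
      · rw [if_pos rfl] at h4
        exact h4
      · intro j _ hj
        rw [if_neg]
        intro h5
        exact hj (Fin.ext h5.symm)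
      · intro h5
        exact absurd (Finset.mem_univ e) h5
  choose δ hδ1 hδ2 using hex
  obtain ⟨p, hp⟩ : ∃ p : Finset (Fin m) → ℝ[X], p = fun S : Finset (Fin m) =>
      if AffineIndependent ℝ (fun j : S => v j) then 1 else ∑ j : Fin m, C (δ S j) * X ^ (j : ℕ) :=
    ⟨_, rfl⟩
  have hp0 : ∀ S, p S ≠ 0 := by
    intro S
    rw [hp]
    beta_reduce
    split_ifs with h
    · exact one_ne_zero
    · exact (hδ2 S).resolve_right h
  have hprod : ∏ S : Finset (Fin m), p S ≠ 0 := Finset.prod_ne_zero_iff.2 (fun S _ => hp0 S)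
  have hs : ∃ s : ℝ, (∏ S : Finset (Fin m), p S).eval s ≠ 0 := by
    by_contra hcon
    push Not at hcon
    apply hprod
    apply Polynomial.funext
    intro r
    rw [hcon r, eval_zero]
  obtain ⟨s, hs⟩ := hs
  rw [eval_prod, Finset.prod_ne_zero_iff] at hs
  refine ⟨fun j => s ^ (j : ℕ), ?_⟩
  intro S hS
  obtain ⟨h1, h2, h3⟩ := hδ1 S hS
  refine ⟨δ S, h1, h2, h3, ?_⟩
  have h4 := hs S (Finset.mem_univ S)
  rw [hp] at h4
  beta_reduce at h4
  rw [if_neg hS, eval_finset_sum] at h4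
  intro h5
  apply h4
  rw [← h5]
  apply Finset.sum_congr rfl
  intro j _
  rw [eval_mul, eval_C, eval_pow, eval_X, mul_comm]

end T7

end TightRP
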