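import Pool.Agent.Lib.MP_7cdc3e_gt.Spec
import Pool.Agent.Lib.InvDom.Manifold

/-!
# MP_7cdc3e_gt, part T7: from simplicial normal cones to a polyhedral map

Part F: if the normal cone at every regular point is simplicial, then there are only finitely many of
them (pure combinatorics and density).
Part G: a map whose image is a finite union of convex cells `{g_i = 0}`, `g_i ≥ 0` on the image, is
polyhedral in the sense of `Defs.lean` (relative boundaries by invariance of domain, polytopes, and a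
triangulation by a linear program with generic cost).
Every `S_...` is a statement to be proved in its own file; the docstring contains the proof.
-/

set_option autoImplicit false

open Module

namespace TightRP

namespace T7

/-- Euclidean space -/
abbrev En (N : ℕ) : Type := EuclideanSpace ℝ (Fin N)

/-! ## Part F: finitely many families -/

/-- **Com** (50 lines).  A family of sets of six elements without finiteness has a kernel.

Proof.  `n` = the largest cardinality of a finset `A` such that `{t ∈ 𝒯 | A ⊆ t}` is infinite: `A = ∅` is one, and `A ⊆ t` for some `t ∈ 𝒯`, so `n ≤ 6` (`Nat.findGreatest` or `exists_max_image` on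
cardinalities).  Take `A` with `A.card = n`.  Given `Y`: the set `S = {t ∈ 𝒯 | A ⊆ t ∧ t ≠ Y}` is infinite.  `t ↦ t ∩ Y` maps `S` into the finite set `Y.powerset`, so some `B` has an infinite fibre
(`Set.Infinite.exists_ne_map_eq_of_mapsTo` is not enough: use that a finite union of finite sets is finite).  All `t` in the fibre contain `A ∪ B`, so `(A ∪ B).card ≤ A.card`, so `B ⊆ A`.  Any `t` in the fibre works. -/
def S_Com : Prop := ∀ (V : Type) [DecidableEq V] (𝒯 : Set (Finset V)), (∀ t ∈ 𝒯, t.card = 6) →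
  𝒯.Infinite → ∃ A : Finset V, {t ∈ 𝒯 | A ⊆ t}.Infinite ∧
    ∀ Y : Finset V, ∃ t ∈ 𝒯, A ⊆ t ∧ t ≠ Y ∧ t ∩ Y ⊆ A

/-- The data: `e y g` is the value of the functional `g` at the point `y`, `R` the set of regular
points, `T z` the six normalized extreme rays of the normal cone at `z`, `P U` says that `U` contains no
odd loop. -/
structure Fam {M V : Type} [TopologicalSpace M] [AddCommGroup V] [Module ℝ V]
    (e : M → V →ₗ[ℝ] ℝ) (P : Set M → Prop) (R : Set M) (T : M → Finset V) (nu : Set V) : Prop where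
  cont : ∀ g, Continuous fun y => e y g
  dense : Dense R
  empty : P ∅
  card : ∀ z ∈ R, (T z).card = 6
  ind : ∀ z ∈ R, LinearIndependent ℝ (fun g : T z => (g : V))
  pos : ∀ z ∈ R, ∀ g ∈ T z, ∀ y, 0 ≤ e y g
  zero : ∀ z ∈ R, ∀ g ∈ T z, e z g = 0
  norm : ∀ z ∈ R, ∀ g ∈ T z, g ∈ nu
  ray : ∀ g ∈ nu, ∀ c : ℝ, 0 < c → c • g ∈ nu → c = 1
  gen : ∀ z ∈ R, ∀ g : V, (∀ y, 0 ≤ e y g) → e z g = 0 →
    ∃ c : V → ℝ, (∀ a, 0 ≤ c a) ∧ g = ∑ a ∈ T z, c a • a
  thin : ∀ z ∈ R, ∀ g ∈ T z, ∀ g' ∈ T z, P {y | 0 < e y (g + g')}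
  meet : ∀ z ∈ R, ∀ y, (∃ g ∈ T z, e y g ≠ 0) →
    ∃ φ : V, (∀ x, 0 ≤ e x φ) ∧ e z φ = 0 ∧ e y φ = 0 ∧ ¬ P {x | 0 < e x φ}
  six : ∀ z ∈ R, ∀ g₀ ∈ T z, ∃ s ⊆ T z, g₀ ∉ s ∧ s.card = 3 ∧ ∃ y, ∀ g ∈ s, 0 < e y g

/-- **Ray** (90 lines).  Extreme rays of two normal cones.

Proof.  `φ = ∑ c_a a`, so `0 = e y φ = ∑ c_a (e y a)` with nonnegative terms: `e y a = 0` (as `c a > 0`).  `gen` at `y` for the functional `a` (`pos`): `a = ∑_{b ∈ T y} d_b b`, `d ≥ 0`.  `0 = e z a = ∑ d_b (e z b)`
(`zero`), so `e z b = 0` for all `b ∈ T y` with `d_b > 0`; `gen` at `z`: `b = ∑_{a' ∈ T z} c^b_{a'} a'`.  Substitute: `a = ∑_{a'} (∑_b d_b c^b_{a'}) a'` (for `d_b = 0` take any `c^b`, for instance `0`); by `ind` at `z`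
`∑_b d_b c^b_{a'} = 0` for `a' ≠ a`, a sum of nonnegative terms.  `a ≠ 0` (linear independence), so some `d_b > 0`; for this `b`: `c^b_{a'} = 0` for `a' ≠ a`, so `b = c^b_a • a`.  `b ≠ 0` (`ind` at `y`), so `c^b_a > 0`;
`norm` and `ray` give `c^b_a = 1`, so `a = b ∈ T y`. -/
def S_Ray : Prop := ∀ (M V : Type) [TopologicalSpace M] [AddCommGroup V] [Module ℝ V]
  (e : M → V →ₗ[ℝ] ℝ) (P : Set M → Prop) (R : Set M) (T : M → Finset V) (nu : Set V),
  Fam e P R T nu → ∀ z ∈ R, ∀ y ∈ R, ∀ c : V → ℝ, (∀ a, 0 ≤ c a) →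
  e y (∑ a ∈ T z, c a • a) = 0 → ∀ a ∈ T z, 0 < c a → a ∈ T y

/-- **Ker** (60 lines; uses `S_Ray`).  A regular point sees a subset of the kernel.

Proof.  First there is `g ∈ T z` with `e y g ≠ 0`: otherwise `S_Ray` with `c = Pi.single g 1` (or `fun a => if a = g then 1 else 0`) gives `T z ⊆ T y` and, by `card`, `T z = T y`.  `meet` gives `φ`; `gen` at `z`: `φ = ∑ c_a a`.
`s = {a ∈ T z | 0 < c a}`.  `S_Ray`: `s ⊆ T y`, so `s ⊆ A`.  `e y a = 0` for `a ∈ s` (sum of nonnegative terms is zero).  `{x | 0 < e x φ} = {x | ∃ a ∈ s, 0 < e x a}` because `e x φ = ∑ c_a (e x a)` has nonnegative terms. -/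
def S_Ker : Prop := ∀ (M V : Type) [TopologicalSpace M] [AddCommGroup V] [Module ℝ V]
  [DecidableEq V] (e : M → V →ₗ[ℝ] ℝ) (P : Set M → Prop) (R : Set M) (T : M → Finset V)
  (nu : Set V), Fam e P R T nu → ∀ (A : Finset V), ∀ z ∈ R, ∀ y ∈ R, T z ≠ T y → T z ∩ T y ⊆ A →
  ∃ s ⊆ A, (∀ a ∈ s, e y a = 0) ∧ ¬ P {x | ∃ a ∈ s, 0 < e x a}

/-- **Fin** (80 lines; uses `S_Com`, `S_Ker`).  Only finitely many normal cones.

Proof.  Otherwise `S_Com` for `𝒯 = T '' R` gives `A`.  Let `D = {y | ∃ s ⊆ A, (∀ a ∈ s, e y a = 0) ∧ ¬ P {x | ∃ a ∈ s, 0 < e x a}}`: a finite union (over `s ∈ A.powerset`) of closed sets (`cont`), so closed.  `R ⊆ D`: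
for `y ∈ R` `S_Com` with `Y = T y` gives `t = T z`, `z ∈ R`, `T z ≠ T y`, `T z ∩ T y ⊆ A`, and `S_Ker`.  So `D` is everything.  The set `{t ∈ 𝒯 | A ⊆ t}` is infinite, so it contains some `t = T z ≠ A`; take `g₀ ∈ T z`, `g₀ ∉ A`, and
`σ`, `y` from `six`.  From `y ∈ D`: `s ⊆ A` with `e y a = 0` on `s`, so `s ∩ σ = ∅`, `g₀ ∉ s`, `s ⊆ T z`: `s` has at most `6 - 3 - 1 = 2` elements.  `s = ∅`: `{x | ..} = ∅`, against `empty`; `s = {g}` or `{g, g'}`: the set is
`{x | 0 < e x (g + g')}` (with `g' = g` in the first case; values are nonnegative by `pos`), against `thin`. -/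
def S_Fin : Prop := ∀ (M V : Type) [TopologicalSpace M] [AddCommGroup V] [Module ℝ V]
  (e : M → V →ₗ[ℝ] ℝ) (P : Set M → Prop) (R : Set M) (T : M → Finset V) (nu : Set V),
  Fam e P R T nu → (T '' R).Finite

/-! ## Part G: convex geometry -/

/-- `p` is in the relative interior of `K` -/
def RI {N : ℕ} (K : Set (En N)) (p : En N) : Prop :=
  ∃ ε > 0, ∀ w ∈ vectorSpan ℝ K, ‖w‖ < ε → p + w ∈ K

/-- **RIex** (30 lines).  The relative interior of a nonempty convex set is not empty.

Proof.  `Set.Nonempty.intrinsicInterior` (finite dimension) gives `p ∈ intrinsicInterior ℝ K`; `mem_intrinsicInterior`: `p` is the value of a point of `interior (Subtype.val ⁻¹' K)` in `affineSpan ℝ K`.  A ball of radius `ε` around it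
is in the preimage; for `w ∈ vectorSpan ℝ K = (affineSpan ℝ K).direction` the point `w +ᵥ p` is in the affine span, at distance `‖w‖`. -/
def S_RIex : Prop := ∀ (N : ℕ) (K : Set (En N)), Convex ℝ K → K.Nonempty → ∃ p, RI K p

/-- hypotheses of the next two statements: affine functions `h_i ≥ 0` on `K`, not identically zero on
`K`, such that every point of the relative boundary of `K` is a zero of one of them -/
structure Wall {N : ℕ} {ι : Type} (K : Set (En N)) (h : ι → (En N →ᵃ[ℝ] ℝ)) : Prop where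
  cpt : IsCompact K
  cvx : Convex ℝ K
  ne : K.Nonempty
  pos : ∀ i, ∀ x ∈ K, 0 ≤ h i x
  nz : ∀ i, ∃ x ∈ K, h i x ≠ 0
  bd : ∀ p ∈ K, ¬ RI K p → ∃ i, h i p = 0

/-- **Half** (70 lines; uses `S_RIex`).  `K` is an intersection of half-spaces in its affine span.

Proof.  `x₀` with `RI K x₀`, `x = p + w`, `u = x - x₀ ∈ vectorSpan ℝ K` (`= w + (p - x₀)`; differences of points of `K` are in `vectorSpan`).  (1) `0 < h_i x₀`: take `k ∈ K`, `0 < h_i k`; for small `ε > 0`
`x₀ + ε (x₀ - k) ∈ K`, so `0 ≤ h_i (x₀ + ε (x₀ - k)) = (1 + ε) h_i x₀ - ε h_i k`.  (2) Suppose `x ∉ K`.  `A = {t ∈ [0,1] | x₀ + t u ∈ K}` is compact, `0 ∈ A`; `t* = sSup A ∈ A`, `t* < 1` (as `x₀ + u = x ∉ K`).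
`q = x₀ + t* u ∈ K` and `h_i q = (1 - t*) h_i x₀ + t* h_i x > 0` for all `i`, so `RI K q` by `bd`; so `q + s u ∈ K` for small `s > 0`, `s ≤ 1 - t*`: `t* + s ∈ A`, contradiction. -/
def S_Half : Prop := ∀ (N : ℕ) (ι : Type) (K : Set (En N)) (h : ι → (En N →ᵃ[ℝ] ℝ)),
  Wall K h → ∀ p ∈ K, ∀ w ∈ vectorSpan ℝ K, (∀ i, 0 ≤ h i (p + w)) → p + w ∈ K

/-- **Ext** (60 lines; uses `S_Half`).  Finitely many extreme points.

Proof.  The map `x ↦ {i | h_i x = 0}` from `K.extremePoints ℝ` to the finite type `Set ι` is injective: let `x ≠ y` be extreme points with the same zero set, `w = y - x ∈ vectorSpan ℝ K`.  For small `ε > 0` and all `i`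
`0 ≤ h_i (x ± ε w) = h_i x ± ε (h_i y - h_i x)`: clear if `h_i x = 0 = h_i y`, and for `h_i x > 0` (finitely many `i`) if `ε` is small.  By `S_Half` `x + ε w, x - ε w ∈ K`; `x` is in their open segment, so `x = x + ε w`, `w = 0`. -/
def S_Ext : Prop := ∀ (N : ℕ) (ι : Type) [Finite ι] (K : Set (En N)) (h : ι → (En N →ᵃ[ℝ] ℝ)),
  Wall K h → (K.extremePoints ℝ).Finite

/-- **Dge** (60 lines).  The dimension of a cell with an interior point is at least three.

Proof.  Suppose `finrank ≤ 2`.  `W = vectorSpan ℝ (f '' X)`; there is an injective linear map `L : W → EuclideanSpace ℝ (Fin 3)` (`finrank_le_iff_exists_linearMap` or a basis) whose range is a proper subspace.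
Take `x ∈ O`.  `F y = L (f y - f x)` for `y ∈ O` (`f y - f x ∈ W`; outside `O` put `0`): continuous on `O` and injective on `O` (`f` is injective on `X ⊇ O`).  `InvDom.isOpen_image_of_locEuc` (with the space
`EuclideanSpace ℝ (Fin 3)`): `F '' O` is open and not empty, and contained in the range of `L`, a proper subspace: a proper submodule has empty interior (`Submodule.eq_top_of_nonempty_interior'`). -/
def S_Dge : Prop := ∀ (M : Type) [TopologicalSpace M] (N : ℕ) (f : M → En N) (X O : Set M),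
  LocEuc3 M → Continuous f → Set.InjOn f X → IsOpen O → O ⊆ X → O.Nonempty →
  3 ≤ finrank ℝ (vectorSpan ℝ (f '' X))

/-- **Dle** (100 lines; uses `S_RIex`).  The dimension of a cell is at most three.

Proof.  `K = f '' X`, `W = vectorSpan ℝ K`; suppose `4 ≤ finrank W`.  `s : K → X` the inverse of `f : X → K`: continuous, since `X` is compact and `f` is continuous and injective on `X` (`Continuous.homeoOfEquivCompactToT2`).
`p` with `RI K p`, radius `ε`.  Take an injective linear map `L : EuclideanSpace ℝ (Fin 3) → W`, and `r > 0` with `‖L v‖ < ε` for `‖v‖ < r`.  `σ v = s (p + L v)` for `v` in the open ball of radius `r`: continuous and injective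
on the ball, so by `InvDom.isOpen_image_of_locEuc` (from `EuclideanSpace ℝ (Fin 3)` to `M`) its image `U` is open in `M` and contains `σ 0 = s p`.  `L` is not surjective (`3 < finrank W`): take `w ∈ W` not in the range.  For small
`t > 0` `p + t w ∈ K`, and `s (p + t w) → s p` for `t → 0`, so `s (p + t w) ∈ U` for some small `t > 0`: `s (p + t w) = s (p + L v)`; apply `f`: `t w = L v`, so `w` is in the range: contradiction. -/
def S_Dle : Prop := ∀ (M : Type) [TopologicalSpace M] [T2Space M] (N : ℕ) (f : M → En N)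
  (X : Set M), LocEuc3 M → Continuous f → IsCompact X → Set.InjOn f X → Convex ℝ (f '' X) →
  X.Nonempty → finrank ℝ (vectorSpan ℝ (f '' X)) ≤ 3

/-- **Rin** (60 lines).  Interior points of a three-dimensional cell are relative interior points.

Proof.  `W = vectorSpan ℝ (f '' X)`, `finrank W = 3`, so there is a linear equivalence `L : W ≃ EuclideanSpace ℝ (Fin 3)`.  `F y = L (f y - f x)` for `y ∈ O` (outside put `0`) is continuous and injective on `O`, so `F '' O` is open
(`InvDom.isOpen_image_of_locEuc`) and contains `0 = F x`.  There is `ε > 0` with: `w ∈ W`, `‖w‖ < ε` imply `L w ∈ F '' O` (continuity of `L`), that is `w = f y - f x` for some `y ∈ O`, so `f x + w = f y ∈ f '' X`. -/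
def S_Rin : Prop := ∀ (M : Type) [TopologicalSpace M] (N : ℕ) (f : M → En N) (X O : Set M),
  LocEuc3 M → Continuous f → Set.InjOn f X → IsOpen O → O ⊆ X →
  finrank ℝ (vectorSpan ℝ (f '' X)) = 3 → ∀ x ∈ O, RI (f '' X) (f x)

/-! ## Part G: a linear program with generic cost -/

section LP

variable {m N : ℕ}

/-- all ways to write `x` as a convex combination of the `v_j` -/
def Feas (v : Fin m → En N) (x : En N) : Set (Fin m → ℝ) :=
  {t | (∀ j, 0 ≤ t j) ∧ ∑ j, t j = 1 ∧ ∑ j, t j • v j = x}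

/-- `t` has minimal cost among them -/
def Opt (v : Fin m → En N) (ω : Fin m → ℝ) (x : En N) (t : Fin m → ℝ) : Prop :=
  t ∈ Feas v x ∧ ∀ t' ∈ Feas v x, ∑ j, ω j * t j ≤ ∑ j, ω j * t' j

/-- the cost is not constant along some affine relation of every dependent set -/
def Generic (v : Fin m → En N) (ω : Fin m → ℝ) : Prop :=
  ∀ S : Finset (Fin m), ¬ AffineIndependent ℝ (fun j : S => v j) →
    ∃ δ : Fin m → ℝ, (∀ j, j ∉ S → δ j = 0) ∧ ∑ j, δ j = 0 ∧ ∑ j, δ j • v j = 0 ∧
      ∑ j, ω j * δ j ≠ 0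

end LP

/-- **Gen** (70 lines).  Generic costs exist.

Proof.  For each `S` with `¬ AffineIndependent` there is `δ_S ≠ 0` supported in `S` with `∑ δ_S j = 0`, `∑ δ_S j • v j = 0` (`affineIndependent_iff`, or `not_affineIndependent_iff`-style: unfold; a relation on a finite type; extend by
zero outside `S`).  The polynomial `p_S = ∑_j C (δ_S j) X^j` is not zero (coefficients), so it has finitely many roots; there are finitely many `S`; choose a real number `s` which is no root of any `p_S`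
(`Set.Finite.infinite_compl` ..) and `ω j = s ^ (j : ℕ)`: `∑ ω j * δ_S j = p_S.eval s ≠ 0`. -/
def S_Gen : Prop := ∀ (m N : ℕ) (v : Fin m → En N), ∃ ω, Generic v ω

/-- **OEx** (30 lines).  Optimal solutions exist.

Proof.  `Feas v x` is a closed subset of `stdSimplex ℝ (Fin m)`, so compact (`isCompact_stdSimplex`); `IsCompact.exists_isMinOn` for the continuous function `t ↦ ∑ ω j * t j`. -/
def S_OEx : Prop := ∀ (m N : ℕ) (v : Fin m → En N) (ω : Fin m → ℝ) (x : En N),
  (Feas v x).Nonempty → ∃ t, Opt v ω x t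

/-- **OInd** (50 lines).  The support of an optimal solution is affinely independent.

Proof.  Otherwise `Generic` for `S = supp t` gives `δ`.  For `|r|` small `t + r δ ∈ Feas v x`: nonnegative, since `t j > 0` on `S` and `δ = 0` outside `S` (finitely many `j`).  Cost `= cost t + r ∑ ω j δ j`; choose the sign of `r` such that it
decreases: contradiction. -/
def S_OInd : Prop := ∀ (m N : ℕ) (v : Fin m → En N) (ω : Fin m → ℝ) (x : En N) (t : Fin m → ℝ),
  Generic v ω → Opt v ω x t → AffineIndependent ℝ (fun j : supp t => v j)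

/-- **OUn** (50 lines; uses `S_OInd`).  Optimal solutions are unique.

Proof.  `s = (t + t') / 2` is feasible with the same cost, so optimal; `supp s = supp t ∪ supp t'` (nonnegative entries).  By `S_OInd` the points `v j`, `j ∈ supp s`, are affinely independent; `t - t'` is an affine relation
(`∑ = 0`, `∑ (t j - t' j) • v j = 0`) supported in `supp s`, so `t = t'` (`affineIndependent_iff`). -/
def S_OUn : Prop := ∀ (m N : ℕ) (v : Fin m → En N) (ω : Fin m → ℝ) (x : En N)
  (t t' : Fin m → ℝ), Generic v ω → Opt v ω x t → Opt v ω x t' → t = t'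

/-- **OSub** (50 lines).  Points with smaller support are optimal for their own value.

Proof.  Let `y = ∑ t' j • v j`, `t'' ∈ Feas v y` with smaller cost than `t'`.  For small `r > 0` `t + r (t'' - t')` is in `Feas v x`: for `j` with `t' j ≠ 0` we have `t j > 0` (so `t j - r t' j ≥ 0`), for the others `t j + r t'' j ≥ 0`; the
sums are `1` and `x + r (y - y)`.  Its cost is smaller than the cost of `t`: contradiction. -/
def S_OSub : Prop := ∀ (m N : ℕ) (v : Fin m → En N) (ω : Fin m → ℝ) (x : En N)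
  (t t' : Fin m → ℝ), Opt v ω x t → (∀ j, 0 ≤ t' j) → ∑ j, t' j = 1 → supp t' ⊆ supp t →
  Opt v ω (∑ j, t' j • v j) t'

/-- **Fce** (20 lines).  Supports stay in faces.

Proof.  `0 = h x = h (∑ t j • v j) = ∑ t j * h (v j)` (an affine map and `∑ t j = 1`: `h y = h.linear y + h 0`), all terms are nonnegative. -/
def S_Fce : Prop := ∀ (m N : ℕ) (v : Fin m → En N) (x : En N) (t : Fin m → ℝ)
  (h : En N →ᵃ[ℝ] ℝ), (∀ j, 0 ≤ h (v j)) → t ∈ Feas v x → h x = 0 → ∀ j, t j ≠ 0 → h (v j) = 0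

/-- the data of the triangulation: `X` is the union of the cells `convexHull {v_j | h_i (v_j) = 0}` -/
structure Vert {m N : ℕ} {ι : Type} (v : Fin m → En N) (h : ι → (En N →ᵃ[ℝ] ℝ))
    (X : Set (En N)) : Prop where
  inj : Function.Injective v
  pos : ∀ i j, 0 ≤ h i (v j)
  cov : ∀ x ∈ X, ∃ i, h i x = 0 ∧ x ∈ convexHull ℝ (v '' {j | h i (v j) = 0})
  sub : ∀ i, convexHull ℝ (v '' {j | h i (v j) = 0}) ⊆ X
  ext : ∀ j, ∃ i, h i (v j) = 0 ∧ v j ∉ convexHull ℝ (v '' {l | l ≠ j ∧ h i (v l) = 0})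
  dim : ∀ i, ∀ S : Finset (Fin m), (∀ j ∈ S, h i (v j) = 0) →
    AffineIndependent ℝ (fun j : S => v j) → S.card ≤ 4

/-- **Fne** (40 lines).  Points of `X` are feasible.

Proof.  `x ∈ convexHull (v '' J)` with the finite set `J = {j | h i (v j) = 0}`: `x = ∑_{j ∈ J} w j • v j` (`Finset.mem_convexHull` / `convexHull_basis_eq_stdSimplex`, for the family `v` restricted to `J`); extend by zero. -/
def S_Fne : Prop := ∀ (m N : ℕ) (ι : Type) (v : Fin m → En N) (h : ι → (En N →ᵃ[ℝ] ℝ))
  (X : Set (En N)), Vert v h X → ∀ x ∈ X, (Feas v x).Nonempty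

/-- **Cpx** (110 lines; uses `S_OEx`, `S_OInd`, `S_OUn`, `S_OSub`, `S_Fce`, `S_Fne`).  The complex of the supports of optimal solutions.

Proof.  `faces = {S | ∃ x ∈ X, ∃ t, Opt v ω x t ∧ supp t = S}`.
(a) If `S = supp t ∈ faces`, `i` with `h i x = 0` (`cov`) then `h i (v j) = 0` for `j ∈ S` (`S_Fce`); so for every `t'` with `t' ≥ 0`, `∑ t' = 1`, `supp t' ⊆ S` the point `y = ∑ t' j • v j` is in `convexHull (v '' {h i = 0}) ⊆ X` (`sub`), and
`Opt v ω y t'` (`S_OSub`).
(b) `vertex_mem`: take `i` from `ext j`; `v j ∈ convexHull ⊆ X`; let `t` be optimal for `v j` (`S_OEx`, `S_Fne`).  By `S_Fce` the support of `t` is in `{h i = 0}`.  If `t j < 1` then `v j = ∑_{l ≠ j} (t l / (1 - t j)) • v l` is in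
`convexHull (v '' {l | l ≠ j ∧ h i (v l) = 0})`, contradiction; so `t j = 1`, `supp t = {j}`.
(c) `nonempty_of_mem`: `∑ t = 1`.  (d) `down`: for `T ⊆ S`, `T` nonempty, take `t' = 1 / T.card` on `T` and (a).  (e) `card_le`: `S_OInd` and `dim`.
(f) The characterization of `real`: if `supp t ∈ faces`, `t ≥ 0`, `∑ t = 1` then (a) with `t' = t`; conversely clear. -/
def S_Cpx : Prop := ∀ (m N : ℕ) (ι : Type) (v : Fin m → En N) (h : ι → (En N →ᵃ[ℝ] ℝ))
  (X : Set (En N)) (ω : Fin m → ℝ), Vert v h X → Generic v ω →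
  ∃ K : Cx (Fin m), ∀ t : Fin m → ℝ, t ∈ K.real ↔ ∃ x ∈ X, Opt v ω x t

/-- **Rc** (30 lines).  The realization of a finite complex is compact.

Proof.  It is a subset of `stdSimplex ℝ (Fin m)`; it is the finite union over `S ∈ K.faces` (a set of finsets of a finite type, so finite) of the closed sets `{t ∈ stdSimplex | ∀ j ∉ S, t j = 0}`: one inclusion by `S = supp t`, the other by `down` and
`supp t ≠ ∅` (as `∑ t = 1`). -/
def S_Rc : Prop := ∀ (m : ℕ) (K : Cx (Fin m)), IsCompact K.real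

/-- **Hom** (70 lines; uses `S_OEx`, `S_OUn`, `S_Fne`, `S_Cpx`, `S_Rc`, `S_Gen`).  The linear program gives a triangulation.

Proof.  `ω` from `S_Gen`, `K` from `S_Cpx` with `X = Set.range f`.  `f : M → Set.range f` is a homeomorphism (`M` compact, `f` continuous injective).  For `t ∈ K.real` the point `ρ t = ∑ t j • v j` is in `X` (`Opt` contains `Feas`: the `x` of the
characterization is `ρ t`).  `φ t = f⁻¹ (ρ t) : K.real → M` is continuous; injective: if `ρ t = ρ t'` then `t`, `t'` are optimal for the same point (`S_OUn`); surjective: for `y : M` take the optimal `t` for `f y` (`S_Fne`, `S_OEx`).  `K.real` is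
compact (`S_Rc`), `M` is Hausdorff: `Continuous.homeoOfEquivCompactToT2`.  `f (φ t) = ∑ t j • v j`. -/
def S_Hom : Prop := ∀ (M : Type) [TopologicalSpace M] [CompactSpace M] [T2Space M] (m N : ℕ)
  (ι : Type) (f : M → En N) (v : Fin m → En N) (h : ι → (En N →ᵃ[ℝ] ℝ)), Continuous f →
  Function.Injective f → Vert v h (Set.range f) → Polyhedral f

/-! ## Part G: cells -/

/-- finitely many convex cells `{g_i = 0}` cover the image -/
structure Cells {M : Type} {N : ℕ} {ι : Type} (f : M → En N) (g : ι → (En N →ᵃ[ℝ] ℝ)) : Prop where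
  pos : ∀ i x, 0 ≤ g i (f x)
  cov : ∀ x, ∃ i, g i (f x) = 0
  inj : ∀ i, Set.InjOn f {x | g i (f x) = 0}
  cvx : ∀ i, Convex ℝ (f '' {x | g i (f x) = 0})

/-- **Inj** (10 lines).

Proof.  `f y = f z`; `g_i (f z) = 0` for some `i` (`cov`), so `g_i (f y) = 0`, and `inj`. -/
def S_Inj : Prop := ∀ (M : Type) (N : ℕ) (ι : Type) (f : M → En N) (g : ι → (En N →ᵃ[ℝ] ℝ)),
  Cells f g → Function.Injective f

/-- **Min** (40 lines).  Minimal covers.

Proof.  Among the subsets `J` of the finite type `ι` with `∀ x, ∃ i ∈ J, Q i x` (`Set.univ` is one) take a minimal one (`Finite.exists_minimal` / well-foundedness for finite sets).  If for some `i ∈ J` every `x` with `Q i x` has a `j ∈ J`, `j ≠ i`,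
`Q j x`, then `J \ {i}` is smaller with the same property. -/
def S_Min : Prop := ∀ (M ι : Type) [Finite ι] (Q : ι → M → Prop), (∀ x, ∃ i, Q i x) →
  ∃ J : Set ι, (∀ x, ∃ i ∈ J, Q i x) ∧ ∀ i ∈ J, ∃ x, Q i x ∧ ∀ j ∈ J, j ≠ i → ¬ Q j x

/-- **Wal** (70 lines; uses `S_Dge`, `S_Dle`, `S_Rin`).  The cells of a minimal cover.

Proof.  `X = {x | g_i (f x) = 0}` is closed, so compact; `K = f '' X`.  `O = {x | ∀ j ≠ i, g_j (f x) ≠ 0}` is open (finite intersection), `O ⊆ X` (`cov`: some `g_j (f x) = 0`, and `j = i`), `O` is not empty (hypothesis).  So `finrank (vectorSpan K) = 3`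
(`S_Dge`, `S_Dle`).  `Wall K (fun j : {j // j ≠ i} => g j)`: `cpt`, `cvx`, `ne`, `pos` are clear; `nz`: the point of `O`; `bd`: let `p = f x ∈ K`, `x ∈ X`, and `g_j p ≠ 0` for all `j ≠ i`: `x ∈ O`, so `RI K p` by `S_Rin`. -/
def S_Wal : Prop := ∀ (M : Type) [TopologicalSpace M] [CompactSpace M] [T2Space M] (N : ℕ)
  (ι : Type) [Finite ι] (f : M → En N) (g : ι → (En N →ᵃ[ℝ] ℝ)), LocEuc3 M → Continuous f →
  Cells f g → ∀ i, (∃ x, ∀ j, j ≠ i → g j (f x) ≠ 0) →
  finrank ℝ (vectorSpan ℝ (f '' {x | g i (f x) = 0})) = 3 ∧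
    Wall (f '' {x | g i (f x) = 0}) (fun j : {j // j ≠ i} => g j)

/-- **Ver** (110 lines; uses `S_Wal`, `S_Ext`).  The vertices.

Proof.  `K_i = f '' {g_i ∘ f = 0}` `= {p ∈ range f | g_i p = 0}`.  By `S_Wal` and `S_Ext` `ext K_i` is finite, so `V = ⋃_i ext K_i` is finite; enumerate it: `m = card V`, `v : Fin m → En N` injective with range `V` (`Finset.equivFin`).
`V ⊆ range f`.  `Vert v g (range f)`: `pos`: `Cells.pos`.  Let `J_i = {j | g_i (v j) = 0}`; `v j ∈ K_i` iff `j ∈ J_i`.  `cov`: `x ∈ range f` is in some `K_i`; `K_i` is compact and convex, so `K_i = closure (convexHull (ext K_i))`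
(`closure_convexHull_extremePoints`), `= convexHull (ext K_i)` (finite sets have closed hulls: `Set.Finite.isClosed_convexHull`) `⊆ convexHull (v '' J_i)`.  `sub`: `v '' J_i ⊆ K_i`, convex.  `ext`: `v j ∈ ext K_i` for some `i`;
`Convex.mem_extremePoints_iff_mem_diff_convexHull_diff`: `v j ∉ convexHull (K_i \ {v j})`, monotonicity.  `dim`: `v j ∈ K_i` for `j ∈ S`; an affinely independent family has at most `finrank (vectorSpan) + 1` members
(`AffineIndependent.card_le_finrank_succ`, `vectorSpan_mono`), and `finrank = 3`. -/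
def S_Ver : Prop := ∀ (M : Type) [TopologicalSpace M] [CompactSpace M] [T2Space M] (N : ℕ)
  (ι : Type) [Finite ι] (f : M → En N) (g : ι → (En N →ᵃ[ℝ] ℝ)), LocEuc3 M → Continuous f →
  Cells f g → (∀ i, ∃ x, ∀ j, j ≠ i → g j (f x) ≠ 0) →
  ∃ (m : ℕ) (v : Fin m → En N), Vert v g (Set.range f)

/-- **Pol** (40 lines; uses `S_Inj`, `S_Min`, `S_Ver`, `S_Hom`).  The result of part G.

Proof.  `S_Min` for `Q i x := g i (f x) = 0` gives `J`; restrict `g` to the finite type `J`: `Cells f (fun i : J => g i)` (cover by `S_Min`), and every `i : J` has a point `x` with `g_j (f x) ≠ 0` for all `j ≠ i`.  `S_Ver`, `S_Inj`, `S_Hom`. -/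
def S_Pol : Prop := ∀ (M : Type) [TopologicalSpace M] [CompactSpace M] [T2Space M] (N : ℕ)
  (ι : Type) [Finite ι] (f : M → En N) (g : ι → (En N →ᵃ[ℝ] ℝ)), LocEuc3 M → Continuous f →
  Cells f g → Polyhedral f

end T7

end TightRP
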