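import Pool.Agent.Lib.MP_7cdc3e_gt.T7.Spec

/-!
# MP_7cdc3e_gt, part T7: the cells of a minimal cover
-/

set_option autoImplicit false

open Module

namespace TightRP

namespace T7

theorem tWal (h1 : S_Dge) (h2 : S_Dle) (h3 : S_Rin) : S_Wal := by
  intro M _ _ _ N ι _ f g hM hf hc i hi
  have hgc : ∀ j, Continuous fun x => g j (f x) := fun j =>
    (g j).continuous_of_finiteDimensional.comp hf
  have hXc : IsClosed {x | g i (f x) = 0} := isClosed_eq (hgc i) continuous_const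
  have hX : IsCompact {x | g i (f x) = 0} := hXc.isCompact
  have hO : IsOpen {x | ∀ j, j ≠ i → g j (f x) ≠ 0} := by
    have h : {x | ∀ j, j ≠ i → g j (f x) ≠ 0} = ⋂ j, {x | j ≠ i → g j (f x) ≠ 0} := by
      ext x
      simp only [Set.mem_setOf_eq, Set.mem_iInter]
    rw [h]
    apply isOpen_iInter_of_finite
    intro j
    by_cases hj : j = i
    · have h' : {x | j ≠ i → g j (f x) ≠ 0} = Set.univ := by
        ext x
        simp only [Set.mem_setOf_eq, Set.mem_univ, iff_true]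
        exact fun h => absurd hj h
      rw [h']
      exact isOpen_univ
    · have h' : {x | j ≠ i → g j (f x) ≠ 0} = {x | g j (f x) ≠ 0} := by
        ext x
        simp only [Set.mem_setOf_eq]
        exact ⟨fun h => h hj, fun h _ => h⟩
      rw [h']
      exact isOpen_ne_fun (hgc j) continuous_const
  have hOX : {x | ∀ j, j ≠ i → g j (f x) ≠ 0} ⊆ {x | g i (f x) = 0} := by
    intro x hx
    obtain ⟨j, hj⟩ := hc.cov x
    by_cases hji : j = i
    · subst hji
      exact hj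
    · exact absurd hj (hx j hji)
  obtain ⟨x₀, hx₀⟩ := hi
  have hOne : {x | ∀ j, j ≠ i → g j (f x) ≠ 0}.Nonempty := ⟨x₀, hx₀⟩
  have hne : {x | g i (f x) = 0}.Nonempty := ⟨x₀, hOX hx₀⟩
  have hdim : finrank ℝ (vectorSpan ℝ (f '' {x | g i (f x) = 0})) = 3 :=
    le_antisymm (h2 M N f _ hM hf hX (hc.inj i) (hc.cvx i) hne)
      (h1 M N f _ _ hM hf (hc.inj i) hO hOX hOne)
  refine ⟨hdim, ⟨hX.image hf, hc.cvx i, hne.image f, ?_, ?_, ?_⟩⟩
  · rintro j _ ⟨x, hx, rfl⟩
    exact hc.pos _ _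
  · intro j
    exact ⟨f x₀, ⟨x₀, hOX hx₀, rfl⟩, hx₀ j.1 j.2⟩
  · rintro _ ⟨x, hx, rfl⟩ hRI
    by_contra hcon
    push Not at hcon
    apply hRI
    exact h3 M N f _ _ hM hf (hc.inj i) hO hOX hdim x fun j hj => hcon ⟨j, hj⟩

end T7

end TightRP
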